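import Mathlib

/-!
# `ℤ`-covers of graphs: definitions

Simple random walk, bounded harmonic functions, free actions of `ℤ`, covers.
-/

set_option autoImplicit false

namespace Pool.Agent.KS6_89.ZL

open Filter MeasureTheory

/-- `G` is Liouville: every bounded harmonic function (for simple random walk) is constant. -/
def Liouville {V : Type} (G : SimpleGraph V) [G.LocallyFinite] : Prop :=
  ∀ h : V → ℝ, (∃ C, ∀ x, |h x| ≤ C) →
    (∀ x, (G.degree x : ℝ) * h x = ∑ y ∈ G.neighborFinset x, h y) → ∀ x y, h x = h y

/-- The average of `f` over the neighbours of `x`: the expectation of `f` after one step of simple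
random walk from `x`. -/
noncomputable def avg {V : Type} (G : SimpleGraph V) [G.LocallyFinite] (f : V → ℝ) (x : V) : ℝ :=
  (∑ y ∈ G.neighborFinset x, f y) / (G.degree x : ℝ)

open Classical in
/-- The probability that simple random walk on `G`, started at `x`, is in the set `A` at time `n`. -/
noncomputable def prob {V : Type} (G : SimpleGraph V) [G.LocallyFinite] (n : ℕ) (x : V)
    (A : Set V) : ℝ :=
  (avg G)^[n] (fun z => if z ∈ A then 1 else 0) x

/-- Simple random walk on `G` is transient: for each vertex `x` the sum over `n` of the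
probabilities of being back at `x` at time `n` is finite. -/
def Transient {V : Type} (G : SimpleGraph V) [G.LocallyFinite] : Prop :=
  ∀ x, Summable fun n => prob G n x {x}

/-- `ℤ` acts freely by automorphisms of `G`. -/
def ActsFreely {V : Type} (G : SimpleGraph V) [AddAction ℤ V] : Prop :=
  (∀ (k : ℤ) (x y : V), G.Adj (k +ᵥ x) (k +ᵥ y) ↔ G.Adj x y) ∧
    ∀ (k : ℤ) (x : V), k +ᵥ x = x → k = 0

/-- The quotient of `G` by the action is Liouville: every bounded function on the set of orbits that
is harmonic for simple random walk on `G` read modulo the action is constant. -/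
def QuotientLiouville {V : Type} (G : SimpleGraph V) [G.LocallyFinite] [AddAction ℤ V] : Prop :=
  ∀ f : AddAction.orbitRel.Quotient ℤ V → ℝ, (∃ C, ∀ a, |f a| ≤ C) →
    (∀ x : V, (G.degree x : ℝ) * f (Quotient.mk (AddAction.orbitRel ℤ V) x)
      = ∑ y ∈ G.neighborFinset x, f (Quotient.mk (AddAction.orbitRel ℤ V) y)) → ∀ a b, f a = f b

/-- Simple random walk on `G` read modulo the action is transient: for each vertex `x` the sum over
`n` of the probabilities of being in the orbit of `x` at time `n` is finite. -/
def QuotientTransient {V : Type} (G : SimpleGraph V) [G.LocallyFinite] [AddAction ℤ V] : Prop :=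
  ∀ x, Summable fun n => prob G n x (AddAction.orbit ℤ x)

/-- `D` contains exactly one vertex of each orbit. -/
def IsFundamentalDomain {V : Type} [AddAction ℤ V] (D : Set V) : Prop :=
  ∀ a : AddAction.orbitRel.Quotient ℤ V, ∃! x, x ∈ D ∧ Quotient.mk (AddAction.orbitRel ℤ V) x = a

open Classical in
/-- `X` is simple random walk on the graph `G`, started at `x`, on the probability space `(Ω, P)`:
the probability of following a given path for `n` steps is the product of the inverse degrees. -/
structure IsSRW {V Ω : Type} [MeasurableSpace Ω] (G : SimpleGraph V) [G.LocallyFinite] (x : V)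
    (P : Measure Ω) (X : ℕ → Ω → V) : Prop where
  prob : IsProbabilityMeasure P
  meas : ∀ n v, MeasurableSet {ω | X n ω = v}
  law : ∀ (n : ℕ) (p : ℕ → V), P {ω | ∀ i ≤ n, X i ω = p i} =
    (if p 0 = x then 1 else 0) *
      ∏ i ∈ Finset.range n, (if G.Adj (p i) (p (i+1)) then ((G.degree (p i) : ENNReal))⁻¹ else 0)

/-- Simple random walk on `G` exists, and from any starting vertex it almost surely visits every
translate of `D` infinitely often. -/
def VisitsAll {V : Type} (G : SimpleGraph V) [G.LocallyFinite] [AddAction ℤ V] (D : Set V) : Prop :=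
  (∀ x : V, ∃ (Ω : Type) (_ : MeasurableSpace Ω) (P : Measure Ω) (X : ℕ → Ω → V),
    IsSRW G x P X) ∧
  ∀ (x : V) (Ω : Type) (_ : MeasurableSpace Ω) (P : Measure Ω) (X : ℕ → Ω → V), IsSRW G x P X →
    ∀ᵐ ω ∂P, ∀ k : ℤ, ∃ᶠ n in atTop, ∃ y ∈ D, X n ω = k +ᵥ y

/-- `H` is the quotient graph `G / ℤ` and `π : G → H` the covering map: the fibres of `π` are the
orbits, and `π` maps the neighbours of each vertex `x` bijectively onto the neighbours of `π x`. -/
def IsCover {V W : Type} (G : SimpleGraph V) (H : SimpleGraph W) [AddAction ℤ V] (π : V → W) :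
    Prop :=
  Function.Surjective π ∧ (∀ x y, π x = π y ↔ ∃ k : ℤ, k +ᵥ x = y) ∧
    ∀ x, Set.BijOn π (G.neighborSet x) (H.neighborSet (π x))

/-- `h` is a bounded harmonic function (for simple random walk) of the graph `G`. -/
def IsBH {V : Type} (G : SimpleGraph V) [G.LocallyFinite] (h : V → ℝ) : Prop :=
  (∃ C, ∀ x, |h x| ≤ C) ∧ ∀ x, (G.degree x : ℝ) * h x = ∑ y ∈ G.neighborFinset x, h y

/-- The bounded harmonic functions of `G` are the bounded functions on `ℤ`: there is a map `B`
(boundary values) from the bounded harmonic functions to the bounded functions on `ℤ` which is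
bijective, linear, preserves the supremum norm, positivity and constants, and carries the action of
`ℤ` on `G` into the translations of `ℤ`. -/
def BoundaryIsZ {V : Type} (G : SimpleGraph V) [G.LocallyFinite] [AddAction ℤ V] : Prop :=
  ∃ B : (V → ℝ) → ℤ → ℝ,
    (∀ F, IsBH G F → ∃ C, ∀ k, |B F k| ≤ C) ∧
    (∀ φ : ℤ → ℝ, (∃ C, ∀ k, |φ k| ≤ C) → ∃! F, IsBH G F ∧ B F = φ) ∧
    (∀ (a : ℝ) (F F' : V → ℝ), IsBH G F → IsBH G F' →
      B (fun v => a * F v + F' v) = fun k => a * B F k + B F' k) ∧
    (∀ (F : V → ℝ) (C : ℝ), IsBH G F → ((∀ v, |F v| ≤ C) ↔ ∀ k, |B F k| ≤ C)) ∧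
    (∀ F : V → ℝ, IsBH G F → ((∀ v, 0 ≤ F v) ↔ ∀ k, 0 ≤ B F k)) ∧
    (∀ (F : V → ℝ) (c : ℝ), IsBH G F → ((∀ v, F v = c) ↔ ∀ k, B F k = c)) ∧
    (∀ (F : V → ℝ) (j : ℤ), IsBH G F → B (fun v => F (j +ᵥ v)) = fun k => B F (j + k))

/-- `G`, with the action of `ℤ`, the projection `π` to the quotient graph `H` and the fundamental
domain `D`, is a counterexample to Q1: `G` is connected, the action is free, the quotient is
Liouville and simple random walk on `G` almost surely visits all translates of `D` infinitely often,
but `G` is not Liouville. -/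
def IsCounterexample {V W : Type} (G : SimpleGraph V) [G.LocallyFinite] [AddAction ℤ V]
    (H : SimpleGraph W) (π : V → W) (D : Set V) : Prop :=
  G.Connected ∧ ActsFreely G ∧ IsCover G H π ∧ QuotientLiouville G ∧ IsFundamentalDomain D ∧
    VisitsAll G D ∧ ¬ Liouville G

end Pool.Agent.KS6_89.ZL
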