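import Mathlib
import Pool.Agent.KS6_89.ZL.Defs

/-!
# Potential theory of simple random walk
-/

set_option autoImplicit false

namespace Pool.Agent.KS6_89.ZL

open Filter MeasureTheory Topology

variable {V : Type} (G : SimpleGraph V) [G.LocallyFinite]

/-- all degrees are positive -/
def PosDeg : Prop := ∀ x, 0 < G.degree x

theorem avg_mono {f g : V → ℝ} (h : ∀ x, f x ≤ g x) (x : V) : avg G f x ≤ avg G g x := by
  unfold avg
  exact div_le_div_of_nonneg_right (Finset.sum_le_sum fun y _ => h y) (Nat.cast_nonneg _)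

theorem avg_congr_nb {f g : V → ℝ} {x : V} (h : ∀ y ∈ G.neighborFinset x, f y = g y) :
    avg G f x = avg G g x := by
  unfold avg
  rw [Finset.sum_congr rfl h]

theorem avg_add (f g : V → ℝ) : avg G (fun x => f x + g x) = fun x => avg G f x + avg G g x := by
  funext x
  unfold avg
  rw [Finset.sum_add_distrib, add_div]

theorem avg_sub (f g : V → ℝ) : avg G (fun x => f x - g x) = fun x => avg G f x - avg G g x := by
  funext x
  unfold avg
  rw [Finset.sum_sub_distrib, sub_div]

theorem avg_smul (c : ℝ) (f : V → ℝ) : avg G (fun x => c * f x) = fun x => c * avg G f x := by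
  funext x
  unfold avg
  rw [← Finset.mul_sum, mul_div_assoc]

theorem avg_const (hd : PosDeg G) (c : ℝ) : avg G (fun _ => c) = fun _ => c := by
  funext x
  unfold avg
  have h0 : ((G.degree x : ℕ) : ℝ) ≠ 0 := by
    have := hd x
    positivity
  rw [Finset.sum_const, SimpleGraph.card_neighborFinset_eq_degree, nsmul_eq_mul, mul_comm,
    mul_div_assoc, div_self h0, mul_one]

theorem iter_mono (n : ℕ) {f g : V → ℝ} (h : ∀ x, f x ≤ g x) :
    ∀ x, (avg G)^[n] f x ≤ (avg G)^[n] g x := by
  induction n with
  | zero => exact h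
  | succ n ih =>
    intro x
    rw [Function.iterate_succ_apply', Function.iterate_succ_apply']
    exact avg_mono G ih x

theorem iter_add (n : ℕ) (f g : V → ℝ) :
    (avg G)^[n] (fun x => f x + g x) = fun x => (avg G)^[n] f x + (avg G)^[n] g x := by
  induction n with
  | zero => rfl
  | succ n ih =>
    rw [Function.iterate_succ_apply', ih, avg_add]
    funext x
    rw [Function.iterate_succ_apply', Function.iterate_succ_apply']

theorem iter_sub (n : ℕ) (f g : V → ℝ) :
    (avg G)^[n] (fun x => f x - g x) = fun x => (avg G)^[n] f x - (avg G)^[n] g x := by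
  induction n with
  | zero => rfl
  | succ n ih =>
    rw [Function.iterate_succ_apply', ih, avg_sub]
    funext x
    rw [Function.iterate_succ_apply', Function.iterate_succ_apply']

theorem iter_smul (n : ℕ) (c : ℝ) (f : V → ℝ) :
    (avg G)^[n] (fun x => c * f x) = fun x => c * (avg G)^[n] f x := by
  induction n with
  | zero => rfl
  | succ n ih =>
    rw [Function.iterate_succ_apply', ih, avg_smul]
    funext x
    rw [Function.iterate_succ_apply']

theorem iter_const (hd : PosDeg G) (n : ℕ) (c : ℝ) : (avg G)^[n] (fun _ => c) = fun _ => c := by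
  induction n with
  | zero => rfl
  | succ n ih => rw [Function.iterate_succ_apply', ih, avg_const G hd]

theorem iter_nonneg (hd : PosDeg G) (n : ℕ) {f : V → ℝ} (h : ∀ x, 0 ≤ f x) (x : V) :
    0 ≤ (avg G)^[n] f x := by
  have := iter_mono G n (f := fun _ => 0) (g := f) h x
  rwa [iter_const G hd] at this

theorem harm_iff (hd : PosDeg G) (h : V → ℝ) :
    (∀ x, (G.degree x : ℝ) * h x = ∑ y ∈ G.neighborFinset x, h y) ↔ avg G h = h := by
  constructor
  · intro hh
    funext x
    unfold avg
    have h0 : ((G.degree x : ℕ) : ℝ) ≠ 0 := by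
      have := hd x
      positivity
    rw [← hh x, mul_div_cancel_left₀ _ h0]
  · intro hh x
    have h0 : ((G.degree x : ℕ) : ℝ) ≠ 0 := by
      have := hd x
      positivity
    have h1 := congrFun hh x
    unfold avg at h1
    rw [← h1, mul_div_cancel₀ _ h0]

theorem liouville_iff (hd : PosDeg G) : Liouville G ↔
    ∀ h : V → ℝ, (∃ C, ∀ x, |h x| ≤ C) → avg G h = h → ∀ x y, h x = h y := by
  unfold Liouville
  constructor
  · intro H h hb hh
    exact H h hb ((harm_iff G hd h).2 hh)
  · intro H h hb hh
    exact H h hb ((harm_iff G hd h).1 hh)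

/-- the maximum principle for subharmonic functions -/
theorem max_principle (hc : G.Connected) (hd : PosDeg G) {f : V → ℝ} (hf : ∀ x, f x ≤ avg G f x)
    {c : ℝ} (hle : ∀ x, f x ≤ c) {x : V} (hx : f x = c) (y : V) : f y = c := by
  have step : ∀ a b, G.Adj a b → f a = c → f b = c := by
    intro a b hab ha
    by_contra hne
    have hlt : f b < c := lt_of_le_of_ne (hle b) hne
    have h1 : ∑ z ∈ G.neighborFinset a, f z < ∑ z ∈ G.neighborFinset a, c :=
      Finset.sum_lt_sum (fun z _ => hle z) ⟨b, by rwa [SimpleGraph.mem_neighborFinset], hlt⟩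
    have h2 : avg G f a < avg G (fun _ => c) a := by
      unfold avg
      have : (0 : ℝ) < G.degree a := by exact_mod_cast hd a
      exact div_lt_div_of_pos_right h1 this
    rw [avg_const G hd] at h2
    linarith [hf a]
  obtain ⟨w⟩ := hc.preconnected x y
  induction w with
  | nil => exact hx
  | cons hadj _ ih => exact ih (step _ _ hadj hx)

theorem telescope (w : V → ℝ) (n : ℕ) (x : V) :
    ∑ k ∈ Finset.range n, (avg G)^[k] (fun z => w z - avg G w z) x = w x - (avg G)^[n] w x := by
  induction n with
  | zero => simp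
  | succ n ih =>
    rw [Finset.sum_range_succ, ih, iter_sub]
    simp only
    rw [← Function.iterate_succ_apply (avg G) n w]
    ring

open Classical in
/-- Let `q` be a nonnegative function, with `∑ (avg^k q)(x)` infinite, and `w` a nonnegative
superharmonic function; then `w - avg w ≥ δ q` is impossible for `δ > 0`. -/
theorem no_charge (hd : PosDeg G) {w q : V → ℝ} (hw : ∀ x, 0 ≤ w x) (hq : ∀ x, 0 ≤ q x) {δ : ℝ}
    (hδ : 0 < δ) (hle : ∀ x, δ * q x ≤ w x - avg G w x) (x : V) :
    Summable fun n => (avg G)^[n] q x := by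
  refine summable_of_sum_range_le (c := w x / δ) (fun n => iter_nonneg G hd n hq x) fun n => ?_
  rw [le_div_iff₀ hδ, mul_comm, Finset.mul_sum]
  have h1 : ∑ k ∈ Finset.range n, δ * (avg G)^[k] q x ≤
      ∑ k ∈ Finset.range n, (avg G)^[k] (fun z => w z - avg G w z) x := by
    refine Finset.sum_le_sum fun k _ => ?_
    have := iter_mono G k hle x
    rwa [iter_smul] at this
  rw [telescope] at h1
  linarith [iter_nonneg G hd n hw x]

/-- positivity of transition probabilities -/
theorem exists_pos (hc : G.Connected) (hd : PosDeg G) {q : V → ℝ} (hq : ∀ x, 0 ≤ q x) {y : V}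
    (hy : 0 < q y) (x : V) : ∃ n, 0 < (avg G)^[n] q x := by
  obtain ⟨w⟩ := hc.preconnected x y
  induction w with
  | nil => exact ⟨0, hy⟩
  | @cons a b c hadj _ ih =>
    obtain ⟨n, hn⟩ := ih hy
    refine ⟨n + 1, ?_⟩
    rw [Function.iterate_succ_apply']
    unfold avg
    have h1 : (0 : ℝ) < G.degree a := by exact_mod_cast hd a
    refine div_pos ?_ h1
    refine Finset.sum_pos' (fun z _ => iter_nonneg G hd n hq z) ⟨b, ?_, hn⟩
    rwa [SimpleGraph.mem_neighborFinset]

end Pool.Agent.KS6_89.ZL
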