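import Mathlib
import Pool.Agent.KS6_89.ZL.Pot

/-!
# The Green function of a transient graph
-/

set_option autoImplicit false

namespace Pool.Agent.KS6_89.ZL

open Filter MeasureTheory Topology

variable {W : Type} (H : SimpleGraph W) [H.LocallyFinite]

theorem prob_nonneg (hd : PosDeg H) (n : ℕ) (x : W) (A : Set W) : 0 ≤ prob H n x A :=
  iter_nonneg H hd n (fun z => by split_ifs <;> norm_num) x

/-- comparison of sums of iterates at two vertices -/
theorem summable_move (hc : H.Connected) (hd : PosDeg H) {q : W → ℝ} (hq : ∀ x, 0 ≤ q x) {x y : W}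
    (hs : Summable fun n => (avg H)^[n] q x) : Summable fun n => (avg H)^[n] q y := by
  classical
  obtain ⟨m, hm⟩ := exists_pos H hc hd (q := fun z => if z = y then (1 : ℝ) else 0)
    (fun z => by split_ifs <;> norm_num) (y := y) (by simp) x
  set c := (avg H)^[m] (fun z => if z = y then (1 : ℝ) else 0) x with hcdef
  have h1 : ∀ n, c * (avg H)^[n] q y ≤ (avg H)^[n + m] q x := by
    intro n
    rw [add_comm n m, Function.iterate_add_apply]
    have h2 := iter_mono H m (f := fun z => (avg H)^[n] q y * (if z = y then (1 : ℝ) else 0))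
      (g := (avg H)^[n] q) (fun z => by
        split_ifs with hz
        · rw [hz, mul_one]
        · rw [mul_zero]
          exact iter_nonneg H hd n hq z) x
    rw [iter_smul] at h2
    simp only at h2
    rw [mul_comm]
    exact h2
  have h3 : Summable fun n => (avg H)^[n + m] q x :=
    (summable_nat_add_iff (f := fun n => (avg H)^[n] q x) m).2 hs
  have h4 : Summable fun n => c * (avg H)^[n] q y :=
    Summable.of_nonneg_of_le (fun n => mul_nonneg hm.le (iter_nonneg H hd n hq y)) h1 h3
  have h5 := h4.mul_left c⁻¹
  refine h5.congr fun n => ?_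
  rw [inv_mul_cancel_left₀ hm.ne']

theorem transient_all (hc : H.Connected) (hd : PosDeg H) (ht : Transient H) (x y : W) :
    Summable fun n => prob H n x {y} :=
  summable_move H hc hd (q := fun z => (open Classical in if z ∈ ({y} : Set W) then (1 : ℝ) else 0))
    (fun z => by split_ifs <;> norm_num) (ht y)

/-- the Green function with pole `o` -/
noncomputable def green (o : W) (x : W) : ℝ := ∑' n, prob H n x {o}

section

variable (hc : H.Connected) (hd : PosDeg H) (ht : Transient H) (o : W)

include hc hd ht

theorem green_pos (x : W) : 0 < green H o x := by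
  classical
  obtain ⟨n, hn⟩ := exists_pos H hc hd (q := fun z => if z ∈ ({o} : Set W) then (1 : ℝ) else 0)
    (fun z => by split_ifs <;> norm_num) (y := o) (by simp) x
  have h1 := (transient_all H hc hd ht x o).le_tsum n (fun m _ => prob_nonneg H hd m x {o})
  have h2 : 0 < prob H n x {o} := by
    unfold prob
    convert hn
  exact h2.trans_le h1

theorem avg_iter_green (n : ℕ) (x : W) :
    (avg H)^[n] (green H o) x = ∑' m, prob H (n + m) x {o} := by
  induction n generalizing x with
  | zero => simp [green]
  | succ n ih =>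
    rw [Function.iterate_succ_apply']
    unfold avg at ih ⊢
    rw [Finset.sum_congr rfl fun y _ => ih y]
    rw [← Summable.tsum_finsetSum (fun y _ => by
      have := (summable_nat_add_iff (f := fun m => prob H m y {o}) n).2
        (transient_all H hc hd ht y o)
      refine this.congr fun m => ?_
      rw [add_comm]), ← tsum_div_const]
    refine tsum_congr fun m => ?_
    rw [show n + 1 + m = (n + m) + 1 by ring]
    unfold prob
    rw [Function.iterate_succ_apply']
    rfl

theorem avg_iter_green_tendsto (x : W) :
    Tendsto (fun n => (avg H)^[n] (green H o) x) atTop (𝓝 0) := by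
  have h1 := tendsto_sum_nat_add fun n => prob H n x {o}
  refine h1.congr fun n => ?_
  rw [avg_iter_green H hc hd ht o n x]
  refine tsum_congr fun m => ?_
  rw [add_comm]

theorem avg_green_self : avg H (green H o) o = green H o o - 1 := by
  have h1 := avg_iter_green H hc hd ht o 1 o
  rw [Function.iterate_one] at h1
  have h2 := (transient_all H hc hd ht o o).tsum_eq_zero_add
  have h3 : prob H 0 o {o} = 1 := by simp [prob]
  rw [h1]
  unfold green
  rw [h2, h3]
  have : ∑' m, prob H (1 + m) o {o} = ∑' m, prob H (m + 1) o {o} :=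
    tsum_congr fun m => by rw [add_comm]
  rw [this]
  ring

theorem avg_green (x : W) (hx : x ≠ o) : avg H (green H o) x = green H o x := by
  have h1 := avg_iter_green H hc hd ht o 1 x
  rw [Function.iterate_one] at h1
  have h2 := (transient_all H hc hd ht x o).tsum_eq_zero_add
  have h3 : prob H 0 x {o} = 0 := by simp [prob, hx]
  rw [h1]
  unfold green
  rw [h2, h3]
  have : ∑' m, prob H (1 + m) x {o} = ∑' m, prob H (m + 1) x {o} :=
    tsum_congr fun m => by rw [add_comm]
  rw [this]
  ring

theorem green_small (ε : ℝ) (hε : 0 < ε) : ∃ x, green H o x < ε := by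
  by_contra hno
  push Not at hno
  have h1 : ∀ n, ε ≤ (avg H)^[n] (green H o) o := by
    intro n
    have := iter_mono H n (f := fun _ => ε) hno o
    rwa [iter_const H hd] at this
  have h2 := ge_of_tendsto' (avg_iter_green_tendsto H hc hd ht o o) h1
  linarith

end

/-- reachability inside a set -/
def Rch (S : Set W) : W → W → Prop :=
  Relation.ReflTransGen fun a b => H.Adj a b ∧ a ∈ S ∧ b ∈ S

variable {H}

omit [H.LocallyFinite]

theorem Rch.mono {S T : Set W} (h : S ⊆ T) {x y : W} (hr : Rch H S x y) : Rch H T x y :=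
  Relation.ReflTransGen.mono (fun _ _ hab => ⟨hab.1, h hab.2.1, h hab.2.2⟩) _ _ hr

theorem Rch.symm {S : Set W} {x y : W} (hr : Rch H S x y) : Rch H S y x := by
  unfold Rch at *
  induction hr with
  | refl => exact Relation.ReflTransGen.refl
  | tail _ hbc ih => exact Relation.ReflTransGen.head ⟨hbc.1.symm, hbc.2.2, hbc.2.1⟩ ih

theorem Rch.mem {S : Set W} {x y : W} (hr : Rch H S x y) (hx : x ∈ S) : y ∈ S := by
  unfold Rch at hr
  induction hr with
  | refl => exact hx
  | tail _ hbc _ => exact hbc.2.2

theorem Rch.univ (hc : H.Connected) (x y : W) : Rch H Set.univ x y := by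
  obtain ⟨w⟩ := hc.preconnected x y
  induction w with
  | nil => exact Relation.ReflTransGen.refl
  | cons hadj _ ih => exact Relation.ReflTransGen.head ⟨hadj, trivial, trivial⟩ ih

theorem Rch.finite {S : Set W} {x y : W} (hr : Rch H S x y) (hx : x ∈ S) :
    ∃ F : Finset W, (F : Set W) ⊆ S ∧ x ∈ F ∧ y ∈ F ∧ ∀ z ∈ F, Rch H (F : Set W) x z := by
  classical
  unfold Rch at hr
  induction hr with
  | refl => exact ⟨{x}, by simpa using hx, by simp, by simp, fun z hz => by
      rw [Finset.mem_singleton] at hz
      rw [hz]
      exact Relation.ReflTransGen.refl⟩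
  | @tail b c _ hbc ih =>
    obtain ⟨F, hF1, hF2, hF3, hF4⟩ := ih
    refine ⟨insert c F, ?_, Finset.mem_insert_of_mem hF2, Finset.mem_insert_self _ _, ?_⟩
    · rw [Finset.coe_insert]
      exact Set.insert_subset hbc.2.2 hF1
    · intro z hz
      have hmono : ∀ z, Rch H (F : Set W) x z → Rch H ((insert c F : Finset W) : Set W) x z :=
        fun z h => h.mono (by
          rw [Finset.coe_insert]
          exact Set.subset_insert _ _)
      rw [Finset.mem_insert] at hz
      rcases hz with rfl | hz
      · exact Relation.ReflTransGen.tail (hmono b (hF4 b hF3)) ⟨hbc.1, by simp [hF3], by simp⟩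
      · exact hmono z (hF4 z hz)

variable (H) [H.LocallyFinite]

section

variable (hc : H.Connected) (hd : PosDeg H) (ht : Transient H) (o : W)

include hc hd ht

/-- The superlevel sets of the Green function are connected. -/
theorem super_connected (t : ℝ) (x : W) (hx : t ≤ green H o x) :
    Rch H {z | t ≤ green H o z} o x := by
  classical
  set v := green H o with hv
  set C : Set W := {y | Rch H {z | t ≤ v z} x y} with hC
  have hxC : x ∈ C := Relation.ReflTransGen.refl
  have hCmem : ∀ y ∈ C, t ≤ v y := fun y hy =>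
    Rch.mem (S := {z | t ≤ v z}) hy hx
  have hCadj : ∀ y ∈ C, ∀ z, H.Adj y z → z ∉ C → v z < t := by
    intro y hy z hyz hz
    by_contra hcon
    push Not at hcon
    exact hz (Relation.ReflTransGen.tail hy ⟨hyz, hCmem y hy, hcon⟩)
  by_contra ho
  have hoC : o ∉ C := fun h => ho (Rch.symm h)
  set w : W → ℝ := fun y => if y ∈ C then v y - t else 0 with hw
  have hw0 : ∀ y, 0 ≤ w y := by
    intro y
    simp only [hw]
    split_ifs with h
    · linarith [hCmem y h]
    · exact le_rfl
  have hsub : ∀ y, w y ≤ avg H w y := by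
    intro y
    by_cases hy : y ∈ C
    · have h1 : w y = avg H (fun z => v z - t) y := by
        rw [avg_sub H v (fun _ => t)]
        simp only
        rw [avg_const H hd, avg_green H hc hd ht o y (fun h => hoC (h ▸ hy))]
        simp only [hw, if_pos hy]
        rfl
      rw [h1]
      unfold avg
      refine div_le_div_of_nonneg_right (Finset.sum_le_sum fun z hz => ?_) (Nat.cast_nonneg _)
      rw [SimpleGraph.mem_neighborFinset] at hz
      simp only [hw]
      split_ifs with h
      · exact le_rfl
      · linarith [hCadj y hy z hz h]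
    · have h1 : w y = 0 := by simp only [hw, if_neg hy]
      rw [h1]
      have := avg_mono H hw0 y
      rwa [avg_const H hd] at this
  have hiter : ∀ n y, w y ≤ (avg H)^[n] w y := by
    intro n
    induction n with
    | zero => intro y; exact le_rfl
    | succ n ih =>
      intro y
      rw [Function.iterate_succ_apply]
      exact (ih y).trans (iter_mono H n hsub y)
  have hw1 : ∀ y, w y ≤ 0 := by
    intro y
    by_cases hy : y ∈ C
    · by_cases ht0 : 0 ≤ t
      · refine ge_of_tendsto' (avg_iter_green_tendsto H hc hd ht o y) fun n => ?_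
        refine (hiter n y).trans (iter_mono H n (fun z => ?_) y)
        simp only [hw]
        split_ifs with h
        · linarith
        · exact (green_pos H hc hd ht o z).le
      · -- `t < 0`: the set is everything
        exfalso
        refine ho (Rch.mono (S := Set.univ) (fun z _ => ?_) (Rch.univ hc o x))
        have := green_pos H hc hd ht o z
        show t ≤ green H o z
        linarith
    · simp only [hw, if_neg hy]
      exact le_rfl
  have heq : ∀ y ∈ C, v y = t := by
    intro y hy
    have h1 := hw1 y
    simp only [hw, if_pos hy] at h1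
    linarith [hCmem y hy]
  have hclosed : ∀ y ∈ C, ∀ z, H.Adj y z → z ∈ C := by
    intro y hy z hyz
    by_contra hz
    have h1 : avg H v y = t := by
      rw [avg_green H hc hd ht o y (fun h => hoC (h ▸ hy))]
      exact heq y hy
    have h2 : ∀ z' ∈ H.neighborFinset y, v z' ≤ t := by
      intro z' hz'
      rw [SimpleGraph.mem_neighborFinset] at hz'
      by_cases h : z' ∈ C
      · exact (heq z' h).le
      · exact (hCadj y hy z' hz' h).le
    have h3 : ∑ z' ∈ H.neighborFinset y, v z' < ∑ z' ∈ H.neighborFinset y, t :=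
      Finset.sum_lt_sum h2 ⟨z, by rwa [SimpleGraph.mem_neighborFinset], hCadj y hy z hyz hz⟩
    have h4 : avg H v y < avg H (fun _ => t) y := by
      unfold avg
      exact div_lt_div_of_pos_right h3 (by exact_mod_cast hd y)
    rw [avg_const H hd] at h4
    linarith
  have hall : ∀ y, Rch H Set.univ x y → y ∈ C := by
    intro y hy
    unfold Rch at hy
    induction hy with
    | refl => exact hxC
    | tail _ hbc ih => exact hclosed _ ih _ hbc.1
  exact hoC (hall o (Rch.univ hc x o))

/-- a vertex with a smaller neighbour and a small value -/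
theorem small_edge (ε : ℝ) (hε : 0 < ε) :
    ∃ a b, H.Adj b a ∧ green H o a < green H o b ∧ green H o b < ε := by
  by_contra hno
  push Not at hno
  set v := green H o with hv
  obtain ⟨b₀, hb₀⟩ := green_small H hc hd ht o (min ε (v o))
    (lt_min hε (green_pos H hc hd ht o o))
  have key : ∀ y, Rch H Set.univ b₀ y → v y = v b₀ := by
    intro y hy
    unfold Rch at hy
    induction hy with
    | refl => rfl
    | @tail y z _ hbc ih =>
      have h1 : v y < ε := by
        rw [ih]
        exact hb₀.trans_le (min_le_left _ _)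
      have h2 : y ≠ o := by
        rintro rfl
        have := hb₀.trans_le (min_le_right _ _)
        rw [ih] at this
        exact lt_irrefl _ this
      have h3 : ∀ a ∈ H.neighborFinset y, v y ≤ v a := by
        intro a ha
        rw [SimpleGraph.mem_neighborFinset] at ha
        by_contra hcon
        push Not at hcon
        exact absurd (hno a y ha hcon) (not_le.2 h1)
      by_contra hne
      have h4 : v y < v z := by
        refine lt_of_le_of_ne (h3 z (by rw [SimpleGraph.mem_neighborFinset]; exact hbc.1)) ?_
        rw [ih]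
        exact fun h => hne h.symm
      have h5 : ∑ a ∈ H.neighborFinset y, v y < ∑ a ∈ H.neighborFinset y, v a :=
        Finset.sum_lt_sum h3 ⟨z, by rw [SimpleGraph.mem_neighborFinset]; exact hbc.1, h4⟩
      have h6 : avg H (fun _ => v y) y < avg H v y := by
        unfold avg
        exact div_lt_div_of_pos_right h5 (by exact_mod_cast hd y)
      rw [avg_const H hd, avg_green H hc hd ht o y h2] at h6
      exact lt_irrefl _ h6
  have h1 := key o (Rch.univ hc b₀ o)
  have h2 := hb₀.trans_le (min_le_right _ _)
  rw [h1] at h2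
  exact lt_irrefl _ h2

end

/-- the limit of the iterates of a bounded subharmonic function on a Liouville graph -/
theorem sub_limit (hd : PosDeg H) (hL : Liouville H) {q : W → ℝ} (h0 : ∀ x, 0 ≤ q x)
    (h1 : ∀ x, q x ≤ 1) (hs : ∀ x, q x ≤ avg H q x) (x₀ : W) :
    ∃ c, (∀ x, q x ≤ c) ∧ ∀ x, Tendsto (fun n => (avg H)^[n] q x) atTop (𝓝 c) := by
  have hm : ∀ x, Monotone fun n => (avg H)^[n] q x := by
    intro x
    refine monotone_nat_of_le_succ fun n => ?_
    rw [Function.iterate_succ_apply]
    exact iter_mono H n hs x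
  have hb : ∀ x n, (avg H)^[n] q x ≤ 1 := by
    intro x n
    have := iter_mono H n h1 x
    rwa [iter_const H hd] at this
  have hlim : ∀ x, ∃ l, Tendsto (fun n => (avg H)^[n] q x) atTop (𝓝 l) := by
    intro x
    exact ⟨_, tendsto_atTop_ciSup (hm x) ⟨1, by rintro _ ⟨n, rfl⟩; exact hb x n⟩⟩
  choose h hh using hlim
  have hharm : avg H h = h := by
    funext x
    have h2 : Tendsto (fun n => avg H ((avg H)^[n] q) x) atTop (𝓝 (avg H h x)) := by
      unfold avg
      exact (tendsto_finsetSum _ fun w _ => hh w).div_const _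
    have h3 : Tendsto (fun n => (avg H)^[n+1] q x) atTop (𝓝 (h x)) :=
      (tendsto_add_atTop_iff_nat 1).2 (hh x)
    refine tendsto_nhds_unique h2 (h3.congr fun n => ?_)
    rw [Function.iterate_succ_apply']
  have hbd : ∀ x, |h x| ≤ 1 := by
    intro x
    rw [abs_le]
    refine ⟨?_, le_of_tendsto' (hh x) (hb x)⟩
    have : 0 ≤ h x := ge_of_tendsto' (hh x) fun n => iter_nonneg H hd n h0 x
    linarith
  have hconst := (liouville_iff H hd).1 hL h ⟨1, hbd⟩ hharm
  refine ⟨h x₀, fun x => ?_, fun x => ?_⟩
  · rw [← hconst x x₀]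
    exact ge_of_tendsto (hh x) (eventually_atTop.2 ⟨0, fun n _ => hm x (Nat.zero_le n)⟩)
  · rw [← hconst x x₀]
    exact hh x

/-- The sublevel sets of the Green function of a transient Liouville graph are connected. -/
theorem sub_connected (hc : H.Connected) (hd : PosDeg H) (ht : Transient H) (o : W)
    (hL : Liouville H) (t : ℝ) (hto : t ≤ green H o o) (x y : W) (hx : green H o x < t)
    (hy : green H o y < t) : Rch H {z | green H o z < t} x y := by
  classical
  set v := green H o with hv
  have hvpos : ∀ z, 0 < v z := green_pos H hc hd ht o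
  have ht0 : 0 < t := (hvpos x).trans hx
  by_contra hxy
  set C : Set W := {z | Rch H {z | v z < t} x z} with hC
  have hCmem : ∀ z ∈ C, v z < t := fun z hz =>
    Rch.mem (S := {z | v z < t}) hz hx
  have hCadj : ∀ z ∈ C, ∀ z', H.Adj z z' → v z' < t → z' ∈ C := by
    intro z hz z' hzz' hz'
    exact Relation.ReflTransGen.tail hz ⟨hzz', hCmem z hz, hz'⟩
  have hCadj' : ∀ z, v z < t → z ∉ C → ∀ z', H.Adj z z' → z' ∉ C := by
    intro z hz hzC z' hzz' hz'
    exact hzC (hCadj z' hz' z hzz'.symm hz)
  -- a general subharmonic function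
  have gen : ∀ (S : Set W), (∀ z ∈ S, v z < t) → (∀ z ∈ S, ∀ z', H.Adj z z' → z' ∉ S → t ≤ v z') →
      ∀ z, (if z ∈ S then 1 - v z / t else 0) ≤
        avg H (fun u => if u ∈ S then 1 - v u / t else 0) z := by
    intro S hS1 hS2 z
    have hnn : ∀ u, 0 ≤ (if u ∈ S then 1 - v u / t else 0) := by
      intro u
      split_ifs with h
      · have : v u / t < 1 := (div_lt_one ht0).2 (hS1 u h)
        linarith
      · exact le_rfl
    split_ifs with hz
    · have hzo : z ≠ o := by
        rintro rfl
        exact absurd (hS1 _ hz) (not_lt.2 hto)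
      have h1 : 1 - v z / t = avg H (fun u => 1 - t⁻¹ * v u) z := by
        rw [avg_sub H (fun _ => 1) (fun u => t⁻¹ * v u)]
        simp only
        rw [avg_const H hd, avg_smul]
        simp only
        rw [avg_green H hc hd ht o z hzo, div_eq_inv_mul]
      rw [h1]
      unfold avg
      refine div_le_div_of_nonneg_right (Finset.sum_le_sum fun u hu => ?_) (Nat.cast_nonneg _)
      rw [SimpleGraph.mem_neighborFinset] at hu
      split_ifs with h
      · rw [div_eq_inv_mul]
      · have h2 := hS2 z hz u hu h
        have h3 : 1 ≤ t⁻¹ * v u := by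
          rw [← div_eq_inv_mul]
          exact (one_le_div ht0).2 h2
        linarith
    · have := avg_mono H hnn z
      rwa [avg_const H hd] at this
  set q₁ : W → ℝ := fun u => if u ∈ C then 1 - v u / t else 0 with hq₁
  obtain ⟨C₂, hC₂⟩ : ∃ C₂ : Set W, ∀ z, z ∈ C₂ ↔ v z < t ∧ z ∉ C :=
    ⟨{z | v z < t ∧ z ∉ C}, fun _ => Iff.rfl⟩
  have hC₂' : ∀ z ∈ C₂, v z < t := fun z hz => ((hC₂ z).1 hz).1
  set q₂ : W → ℝ := fun u => if u ∈ C₂ then 1 - v u / t else 0 with hq₂
  have b0 : ∀ S : Set W, (∀ z ∈ S, v z < t) → ∀ u, 0 ≤ (if u ∈ S then 1 - v u / t else 0) ∧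
      (if u ∈ S then 1 - v u / t else 0) ≤ 1 := by
    intro S hS u
    have h1 : 0 < v u / t := div_pos (hvpos u) ht0
    split_ifs with h
    · have : v u / t < 1 := (div_lt_one ht0).2 (hS u h)
      constructor <;> linarith
    · constructor <;> norm_num
  obtain ⟨c₁, hc1, hl1⟩ := sub_limit H hd hL (q := q₁) (fun u => (b0 C hCmem u).1)
    (fun u => (b0 C hCmem u).2) (gen C hCmem (fun z hz z' hzz' hz' => by
      by_contra hcon
      push Not at hcon
      exact hz' (hCadj z hz z' hzz' hcon))) o
  obtain ⟨c₂, hc2, hl2⟩ := sub_limit H hd hL (q := q₂)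
    (fun u => (b0 C₂ hC₂' u).1)
    (fun u => (b0 C₂ hC₂' u).2)
    (gen C₂ hC₂' (fun z hz z' hzz' hz' => by
      by_contra hcon
      push Not at hcon
      have h1 := (hC₂ z).1 hz
      exact hz' ((hC₂ z').2 ⟨hcon, hCadj' z h1.1 h1.2 z' hzz'⟩))) o
  have p1 : 0 < c₁ := by
    have h1 := hc1 x
    have hxC : x ∈ C := Relation.ReflTransGen.refl
    simp only [hq₁, if_pos hxC] at h1
    have : v x / t < 1 := (div_lt_one ht0).2 hx
    linarith
  have p2 : 0 < c₂ := by
    have h1 := hc2 y
    have hyC : y ∈ C₂ := (hC₂ y).2 ⟨hy, hxy⟩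
    simp only [hq₂, if_pos hyC] at h1
    have : v y / t < 1 := (div_lt_one ht0).2 hy
    linarith
  -- the sum
  have hsum : ∀ u, q₁ u + q₂ u = max 0 (1 - v u / t) := by
    intro u
    simp only [hq₁, hq₂]
    by_cases hu : v u < t
    · have h1 : 0 ≤ 1 - v u / t := by
        have : v u / t < 1 := (div_lt_one ht0).2 hu
        linarith
      rw [max_eq_right h1]
      by_cases huC : u ∈ C
      · rw [if_pos huC, if_neg (fun h => ((hC₂ u).1 h).2 huC), add_zero]
      · rw [if_neg huC, if_pos ((hC₂ u).2 ⟨hu, huC⟩), zero_add]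
    · have h1 : 1 - v u / t ≤ 0 := by
        have : 1 ≤ v u / t := (one_le_div ht0).2 (not_lt.1 hu)
        linarith
      rw [max_eq_left h1, if_neg (fun h => hu (hCmem u h)), if_neg (fun h => hu (hC₂' u h)),
        add_zero]
  have hlim : Tendsto (fun n => (avg H)^[n] (fun u => q₁ u + q₂ u) o) atTop (𝓝 (c₁ + c₂)) := by
    have := (hl1 o).add (hl2 o)
    refine this.congr fun n => ?_
    rw [iter_add]
  -- the limit is at most one
  have hle1 : c₁ + c₂ ≤ 1 := by
    refine le_of_tendsto' hlim fun n => ?_
    have := iter_mono H n (f := fun u => q₁ u + q₂ u) (g := fun _ => 1) (fun u => by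
      rw [hsum]
      have : 0 < v u / t := div_pos (hvpos u) ht0
      exact max_le zero_le_one (by linarith)) o
    rwa [iter_const H hd] at this
  -- the limit is one
  have hge1 : 1 ≤ c₁ + c₂ := by
    have h2 : Tendsto (fun n => 1 - t⁻¹ * (avg H)^[n] v o) atTop (𝓝 (1 - t⁻¹ * 0)) :=
      tendsto_const_nhds.sub ((avg_iter_green_tendsto H hc hd ht o o).const_mul _)
    rw [mul_zero, sub_zero] at h2
    refine le_of_tendsto_of_tendsto' h2 hlim fun n => ?_
    have h3 := iter_mono H n (f := fun u => 1 - t⁻¹ * v u) (g := fun u => q₁ u + q₂ u) (fun u => by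
      rw [hsum, ← div_eq_inv_mul]
      exact le_max_right _ _) o
    rw [iter_sub H n (fun _ => 1) (fun u => t⁻¹ * v u)] at h3
    simp only at h3
    rw [iter_const H hd, iter_smul] at h3
    exact h3
  -- but each of the functions is at most `max c₁ c₂ < 1`
  have hmax : ∀ u, q₁ u + q₂ u ≤ max c₁ c₂ := by
    intro u
    by_cases huC : u ∈ C
    · have : q₂ u = 0 := by
        simp only [hq₂]
        rw [if_neg (fun h => ((hC₂ u).1 h).2 huC)]
      rw [this, add_zero]
      exact (hc1 u).trans (le_max_left _ _)
    · have : q₁ u = 0 := by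
        simp only [hq₁]
        rw [if_neg huC]
      rw [this, zero_add]
      exact (hc2 u).trans (le_max_right _ _)
  have hle2 : c₁ + c₂ ≤ max c₁ c₂ := by
    refine le_of_tendsto' hlim fun n => ?_
    have := iter_mono H n hmax o
    rwa [iter_const H hd] at this
  rcases le_total c₁ c₂ with h | h
  · rw [max_eq_right h] at hle2
    linarith
  · rw [max_eq_left h] at hle2
    linarith

end Pool.Agent.KS6_89.ZL
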