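import Mathlib
import Pool.Agent.KS6_89.ZL.Green

/-!
# Connected levels of a transient Liouville graph
-/

set_option autoImplicit false

namespace Pool.Agent.KS6_89.ZL

open Filter

variable {W : Type} {H : SimpleGraph W} {o : W} {v : W → ℝ}

/-- the part of the complement of `K` which contains the vertices with small values of `v` -/
def UU (H : SimpleGraph W) (v : W → ℝ) (K : Finset W) : Set W :=
  {x | ∃ y, (∀ z ∈ K, v y < v z) ∧ Rch H ((K : Set W)ᶜ) x y}

/-- a finite connected set containing `o` -/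
def Good (H : SimpleGraph W) (o : W) (K : Finset W) : Prop :=
  o ∈ K ∧ ∀ x ∈ K, Rch H (K : Set W) o x

theorem UU_notMem {K : Finset W} {x : W} (hx : x ∈ UU H v K) : x ∉ K := by
  obtain ⟨y, hy, hr⟩ := hx
  have h1 : y ∈ ((K : Set W)ᶜ) := fun h => lt_irrefl _ (hy y h)
  have h2 : x ∈ ((K : Set W)ᶜ) := Rch.mem (Rch.symm hr) h1
  exact h2

theorem UU_adj {K : Finset W} {x x' : W} (hx : x ∈ UU H v K) (hadj : H.Adj x x') (hx' : x' ∉ K) :
    x' ∈ UU H v K := by
  have h0 := UU_notMem hx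
  obtain ⟨y, hy, hr⟩ := hx
  exact ⟨y, hy, Relation.ReflTransGen.head ⟨hadj.symm, hx', h0⟩ hr⟩

theorem UU_refl {K : Finset W} {y : W} (hy : ∀ z ∈ K, v y < v z) : y ∈ UU H v K :=
  ⟨y, hy, Relation.ReflTransGen.refl⟩

theorem UU_anti {K K' : Finset W} (h : K ⊆ K') : UU H v K' ⊆ UU H v K := by
  rintro x ⟨y, hy, hr⟩
  refine ⟨y, fun z hz => hy z (h hz), hr.mono ?_⟩
  exact Set.compl_subset_compl.2 (Finset.coe_subset.2 h)

theorem UU_rch {K : Finset W} {x y : W} (hy : ∀ z ∈ K, v y < v z)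
    (hr : Rch H ((K : Set W)ᶜ) x y) : Rch H (UU H v K) x y := by
  unfold Rch at hr
  induction hr using Relation.ReflTransGen.head_induction_on with
  | refl => exact Relation.ReflTransGen.refl
  | head hab hbc ih =>
    refine Relation.ReflTransGen.head ⟨hab.1, ?_, ?_⟩ ih
    · exact ⟨y, hy, Relation.ReflTransGen.head hab hbc⟩
    · exact ⟨y, hy, hbc⟩

theorem UU_connected (L2 : ∀ t, t ≤ v o → ∀ x y, v x < t → v y < t → Rch H {z | v z < t} x y)
    {K : Finset W} (ho : o ∈ K) {x x' : W} (hx : x ∈ UU H v K) (hx' : x' ∈ UU H v K) :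
    Rch H (UU H v K) x x' := by
  obtain ⟨y, hy, hr⟩ := hx
  obtain ⟨y', hy', hr'⟩ := hx'
  have hne : K.Nonempty := ⟨o, ho⟩
  set t := K.inf' hne v with ht
  have h1 : ∀ z, v z < t ↔ ∀ w ∈ K, v z < v w := fun z => by rw [ht, Finset.lt_inf'_iff]
  have h2 : Rch H {z | v z < t} y y' :=
    L2 t (Finset.inf'_le _ ho) y y' ((h1 y).2 hy) ((h1 y').2 hy')
  have h3 : Rch H (UU H v K) y y' := h2.mono fun z hz => UU_refl ((h1 z).1 hz)
  exact ((UU_rch hy hr).trans h3).trans (UU_rch hy' hr').symm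

theorem UU_compl (hc : H.Connected) {K : Finset W} (hK : Good H o K) {x : W}
    (hx : x ∉ UU H v K) : Rch H ((UU H v K)ᶜ) x o := by
  have hsub : (K : Set W) ⊆ (UU H v K)ᶜ := fun z hz h => UU_notMem h hz
  have h0 := Rch.univ hc x o
  unfold Rch at h0
  induction h0 using Relation.ReflTransGen.head_induction_on with
  | refl => exact Relation.ReflTransGen.refl
  | @head a b hab _ ih =>
    by_cases haK : a ∈ K
    · exact ((hK.2 a haK).mono hsub).symm
    · have hb : b ∉ UU H v K := fun h => hx (UU_adj h hab.1.symm haK)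
      exact Relation.ReflTransGen.head ⟨hab.1, hx, hb⟩ (ih hb)

open Classical in
/-- the next finite set -/
theorem extend [H.LocallyFinite] (hv : ∀ x, 0 < v x)
    (L1 : ∀ t x, t ≤ v x → Rch H {z | t ≤ v z} o x)
    (L2 : ∀ t, t ≤ v o → ∀ x y, v x < t → v y < t → Rch H {z | v z < t} x y)
    (L3 : ∀ ε : ℝ, 0 < ε → ∃ a b, H.Adj b a ∧ v a < v b ∧ v b < ε)
    (K : Finset W) (hK : Good H o K) (ε : ℝ) (hε : 0 < ε) :
    ∃ p : Finset W × W × W, Good H o p.1 ∧ K ⊆ p.1 ∧ (∀ x ∈ K, ∀ y, H.Adj x y → y ∈ p.1) ∧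
      (∀ y y', y ∈ UU H v K → y' ∈ UU H v K → (∃ x ∈ K, H.Adj x y) → (∃ x ∈ K, H.Adj x y') →
        Rch H (UU H v K ∩ (p.1 : Set W)) y y') ∧
      H.Adj p.2.2 p.2.1 ∧ p.2.2 ∈ p.1 ∧ p.2.2 ∈ UU H v K ∧ p.2.1 ∈ UU H v p.1 ∧
      v p.2.1 + v p.2.2 < ε := by
  set N := K.biUnion fun x => H.neighborFinset x with hN
  set P := N.filter fun y => y ∈ UU H v K with hP
  have hF : ∀ y y', ∃ F : Finset W, y ∈ P → y' ∈ P → (F : Set W) ⊆ UU H v K ∧ y ∈ F ∧ y' ∈ F ∧
      ∀ z ∈ F, Rch H (F : Set W) y z := by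
    intro y y'
    by_cases h : y ∈ P ∧ y' ∈ P
    · have h1 := (Finset.mem_filter.1 h.1).2
      have h2 := (Finset.mem_filter.1 h.2).2
      obtain ⟨F, hF⟩ := Rch.finite (UU_connected L2 hK.1 h1 h2) h1
      exact ⟨F, fun _ _ => hF⟩
    · exact ⟨∅, fun h1 h2 => absurd ⟨h1, h2⟩ h⟩
  choose F hF using hF
  set M := (K ∪ N) ∪ P.biUnion fun y => P.biUnion fun y' => F y y' with hM
  have hKM : K ⊆ M := fun x hx => Finset.mem_union_left _ (Finset.mem_union_left _ hx)
  have hNM : N ⊆ M := fun x hx => Finset.mem_union_left _ (Finset.mem_union_right _ hx)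
  have hFM : ∀ y ∈ P, ∀ y' ∈ P, F y y' ⊆ M := fun y hy y' hy' z hz =>
    Finset.mem_union_right _ (Finset.mem_biUnion.2 ⟨y, hy, Finset.mem_biUnion.2 ⟨y', hy', hz⟩⟩)
  have hMne : M.Nonempty := ⟨o, hKM hK.1⟩
  have ht : 0 < min (M.inf' hMne v) (ε / 2) :=
    lt_min ((Finset.lt_inf'_iff _).2 fun z _ => hv z) (by linarith)
  obtain ⟨a, b, hba, hab, hb⟩ := L3 _ ht
  have hbM : ∀ z ∈ M, v b < v z := (Finset.lt_inf'_iff _).1 (hb.trans_le (min_le_left _ _))
  have hbε : v b < ε / 2 := hb.trans_le (min_le_right _ _)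
  have hG : ∀ x, ∃ G : Finset W, x ∈ insert b M → (G : Set W) ⊆ {z | v b ≤ v z} ∧ o ∈ G ∧ x ∈ G ∧
      ∀ z ∈ G, Rch H (G : Set W) o z := by
    intro x
    by_cases hx : x ∈ insert b M
    · have hbx : v b ≤ v x := by
        rw [Finset.mem_insert] at hx
        rcases hx with rfl | hx
        · exact le_rfl
        · exact (hbM x hx).le
      have h1 := L1 (v b) x hbx
      have ho : o ∈ {z | v b ≤ v z} := Rch.mem (S := {z | v b ≤ v z}) h1.symm hbx
      obtain ⟨G, hG⟩ := Rch.finite h1 ho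
      exact ⟨G, fun _ => hG⟩
    · exact ⟨∅, fun h => absurd h hx⟩
  choose G hG using hG
  set K' := (insert b M).biUnion G with hK'
  have hsub : ∀ x ∈ insert b M, G x ⊆ K' := fun x hx z hz => Finset.mem_biUnion.2 ⟨x, hx, hz⟩
  have hbmem : b ∈ insert b M := Finset.mem_insert_self _ _
  have hMK' : M ⊆ K' := fun x hx =>
    hsub x (Finset.mem_insert_of_mem hx) (hG x (Finset.mem_insert_of_mem hx)).2.2.1
  have hlow : ∀ z ∈ K', v b ≤ v z := by
    intro z hz
    obtain ⟨x, hx, hz⟩ := Finset.mem_biUnion.1 hz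
    exact (hG x hx).1 hz
  refine ⟨(K', a, b), ⟨?_, ?_⟩, hKM.trans hMK', ?_, ?_, hba, ?_, ?_, ?_, ?_⟩
  · exact hsub b hbmem (hG b hbmem).2.1
  · intro z hz
    obtain ⟨x, hx, hz⟩ := Finset.mem_biUnion.1 hz
    exact ((hG x hx).2.2.2 z hz).mono (Finset.coe_subset.2 (hsub x hx))
  · intro x hx y hxy
    refine hMK' (hNM (Finset.mem_biUnion.2 ⟨x, hx, ?_⟩))
    rwa [SimpleGraph.mem_neighborFinset]
  · rintro y y' hy hy' ⟨x, hx, hxy⟩ ⟨x', hx', hxy'⟩
    have h1 : y ∈ P := Finset.mem_filter.2 ⟨Finset.mem_biUnion.2 ⟨x, hx, by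
      rwa [SimpleGraph.mem_neighborFinset]⟩, hy⟩
    have h2 : y' ∈ P := Finset.mem_filter.2 ⟨Finset.mem_biUnion.2 ⟨x', hx', by
      rwa [SimpleGraph.mem_neighborFinset]⟩, hy'⟩
    obtain ⟨f1, f2, f3, f4⟩ := hF y y' h1 h2
    refine Rch.mono (fun z hz => ?_) (f4 y' f3)
    exact ⟨f1 hz, hMK' (hFM y h1 y' h2 hz)⟩
  · exact hsub b hbmem (hG b hbmem).2.2.1
  · exact UU_refl fun z hz => hbM z (hKM hz)
  · exact UU_refl fun z hz => hab.trans_le (hlow z hz)
  · simp only
    linarith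

open Classical in
/-- **The connected levels.** -/
theorem levels [H.LocallyFinite] (hc : H.Connected) (hv : ∀ x, 0 < v x)
    (L1 : ∀ t x, t ≤ v x → Rch H {z | t ≤ v z} o x)
    (L2 : ∀ t, t ≤ v o → ∀ x y, v x < t → v y < t → Rch H {z | v z < t} x y)
    (L3 : ∀ ε : ℝ, 0 < ε → ∃ a b, H.Adj b a ∧ v a < v b ∧ v b < ε)
    (K0 : Finset W) (hK0 : Good H o K0) :
    ∃ (lev : W → ℕ) (a b : ℕ → W) (Ks : ℕ → Finset W),
      (∀ x ∈ K0, lev x = 0) ∧
      (∀ i, H.Adj (b i) (a i) ∧ lev (b i) = i ∧ lev (a i) = i + 1 ∧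
        v (a i) + v (b i) < (1 / 2) ^ i) ∧
      (∀ i x y, lev x = i → lev y = i → Rch H {z | lev z = i} x y) ∧
      (∀ x y, H.Adj x y → lev y ≤ lev x + 1) ∧
      (∀ i x, (∀ z ∈ Ks i, v x < v z) → i < lev x) ∧
      (∀ i x y, H.Adj x y → i < lev x → y ∉ Ks i → i < lev y) ∧
      (∀ i, (Ks i).Nonempty) := by
  have hnW : Nonempty W := ⟨o⟩
  have hext := extend hv L1 L2 L3
  choose! f hf using hext
  set s : ℕ → Finset W × W × W := fun n =>
    Nat.rec (f K0 1) (fun n p => f p.1 ((1 / 2) ^ (n + 1))) n with hs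
  have hs0 : s 0 = f K0 1 := rfl
  have hs1 : ∀ n, s (n + 1) = f (s n).1 ((1 / 2) ^ (n + 1)) := fun n => rfl
  have hgood : ∀ n, Good H o (s n).1 := by
    intro n
    induction n with
    | zero => exact (hf K0 hK0 1 one_pos).1
    | succ n ih =>
      rw [hs1]
      exact (hf (s n).1 ih _ (by positivity)).1
  have h0 := hf K0 hK0 1 one_pos
  rw [← hs0] at h0
  have h1 := fun n => hf (s n).1 (hgood n) ((1 / 2) ^ (n + 1)) (by positivity)
  simp only [← hs1] at h1
  set U : ℕ → Set W := fun i => UU H v (s i).1 with hU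
  have hmono : ∀ i, (s i).1 ⊆ (s (i+1)).1 := fun i => (h1 i).2.1
  have hanti : ∀ i j, i ≤ j → U j ⊆ U i := by
    intro i j hij
    induction j, hij using Nat.le_induction with
    | base => exact subset_rfl
    | succ j _ ih => exact (UU_anti (hmono j)).trans ih
  have hoK : ∀ i, o ∈ (s i).1 := fun i => (hgood i).1
  -- exhaustion
  have hex : ∀ x, ∃ i, x ∈ (s i).1 := by
    intro x
    have h2 := Rch.univ hc o x
    unfold Rch at h2
    induction h2 with
    | refl => exact ⟨0, hoK 0⟩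
    | @tail y z _ hyz ih =>
      obtain ⟨i, hi⟩ := ih
      exact ⟨i + 1, (h1 i).2.2.1 y hi z hyz.1⟩
  have hex' : ∀ x, ∃ i, x ∉ U i := fun x => by
    obtain ⟨i, hi⟩ := hex x
    exact ⟨i, fun h => UU_notMem h hi⟩
  set lev : W → ℕ := fun x => Nat.find (hex' x) with hlev
  have hlt : ∀ i x, i < lev x ↔ x ∈ U i := by
    intro i x
    constructor
    · intro h
      by_contra hx
      exact Nat.find_min (hex' x) h hx
    · intro h
      by_contra hle
      push Not at hle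
      exact Nat.find_spec (hex' x) (hanti _ _ hle h)
  have hKlev : ∀ i x, x ∈ (s i).1 → lev x ≤ i := by
    intro i x hx
    by_contra hcon
    push Not at hcon
    exact UU_notMem ((hlt i x).1 hcon) hx
  have hlo : lev o = 0 := Nat.le_zero.1 (hKlev 0 o (hoK 0))
  refine ⟨lev, fun i => (s i).2.1, fun i => (s i).2.2, fun i => (s i).1, ?_, ?_, ?_, ?_, ?_, ?_, ?_⟩
  · intro x hx
    exact Nat.le_zero.1 (hKlev 0 x (h0.2.1 hx))
  · intro i
    have hadj : H.Adj (s i).2.2 (s i).2.1 ∧ (s i).2.2 ∈ (s i).1 ∧ (s i).2.1 ∈ U i ∧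
        v (s i).2.1 + v (s i).2.2 < (1 / 2) ^ i := by
      cases i with
      | zero =>
        obtain ⟨-, -, -, -, g1, g2, -, g4, g5⟩ := h0
        exact ⟨g1, g2, g4, by simpa using g5⟩
      | succ i =>
        obtain ⟨-, -, -, -, g1, g2, -, g4, g5⟩ := h1 i
        exact ⟨g1, g2, g4, g5⟩
    refine ⟨hadj.1, ?_, ?_, hadj.2.2.2⟩
    · refine le_antisymm (hKlev i _ hadj.2.1) ?_
      cases i with
      | zero => exact Nat.zero_le _
      | succ i =>
        obtain ⟨-, -, -, -, -, -, g3, -, -⟩ := h1 i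
        exact (hlt i _).2 g3
    · refine le_antisymm (hKlev (i+1) _ ?_) ((hlt i _).2 hadj.2.2.1)
      exact (h1 i).2.2.1 _ hadj.2.1 _ hadj.1
  · intro i x y hx hy
    cases i with
    | zero =>
      have hset : {z | lev z = 0} = (U 0)ᶜ := by
        ext z
        rw [Set.mem_compl_iff, ← hlt 0 z]
        show lev z = 0 ↔ _
        omega
      have hx' : x ∉ U 0 := fun h => by
        have := (hlt 0 x).2 h
        omega
      have hy' : y ∉ U 0 := fun h => by
        have := (hlt 0 y).2 h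
        omega
      rw [hset]
      exact (UU_compl hc (hgood 0) hx').trans (UU_compl hc (hgood 0) hy').symm
    | succ j =>
      have key : ∀ x, lev x = j + 1 → ∃ z, Rch H {z | lev z = j + 1} x z ∧ z ∈ U j ∧
          ∃ k ∈ (s j).1, H.Adj k z := by
        intro x hx
        have hx' : x ∉ U (j+1) := fun h => by
          have := (hlt (j+1) x).2 h
          omega
        have h2 := UU_compl hc (hgood (j+1)) hx'
        unfold Rch at h2
        induction h2 using Relation.ReflTransGen.head_induction_on with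
        | refl =>
          rw [hlo] at hx
          omega
        | @head c d hcd _ ih =>
          have hcU : c ∈ U j := (hlt j c).1 (by omega)
          by_cases hd : d ∈ U j
          · have hdl : lev d = j + 1 := by
              have h3 := (hlt j d).2 hd
              have h4 : ¬ (j + 1 < lev d) := fun h => hcd.2.2 ((hlt (j+1) d).1 h)
              omega
            obtain ⟨z, hz1, hz2, hz3⟩ := ih hdl hcd.2.2
            exact ⟨z, Relation.ReflTransGen.head ⟨hcd.1, hx, hdl⟩ hz1, hz2, hz3⟩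
          · refine ⟨c, Relation.ReflTransGen.refl, hcU, d, ?_, hcd.1.symm⟩
            by_contra hdK
            exact hd (UU_adj hcU hcd.1 hdK)
      obtain ⟨z, hz1, hz2, hz3⟩ := key x hx
      obtain ⟨z', hz1', hz2', hz3'⟩ := key y hy
      have h2 := (h1 j).2.2.2.1 z z' hz2 hz2' hz3 hz3'
      have h3 : Rch H {z | lev z = j + 1} z z' := h2.mono fun w hw => by
        have h4 := (hlt j w).2 hw.1
        have h5 := hKlev (j+1) w hw.2
        show lev w = j + 1
        omega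
      exact (hz1.trans h3).trans hz1'.symm
  · intro x y hxy
    by_contra hcon
    push Not at hcon
    have hy : y ∈ U (lev x + 1) := (hlt _ y).1 hcon
    have hy' : y ∈ U (lev x) := hanti _ _ (Nat.le_succ _) hy
    have hx : x ∉ U (lev x) := fun h => lt_irrefl _ ((hlt _ x).2 h)
    have hxK : x ∈ (s (lev x)).1 := by
      by_contra hxK
      exact hx (UU_adj hy' hxy.symm hxK)
    exact UU_notMem hy ((h1 (lev x)).2.2.1 x hxK y hxy)
  · intro i x hx
    exact (hlt i x).2 (UU_refl hx)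
  · intro i x y hxy hx hy
    exact (hlt i y).2 (UU_adj ((hlt i x).1 hx) hxy hy)
  · intro i
    exact ⟨o, hoK i⟩

end Pool.Agent.KS6_89.ZL
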