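import Mathlib
import Pool.Agent.KS6_89.ZL.Pot

/-!
# A graph with a `ℤ`-action and recurrent quotient is Liouville
-/

set_option autoImplicit false

namespace Pool.Agent.KS6_89.ZL

open Filter MeasureTheory Topology

variable {V : Type} {G : SimpleGraph V} [G.LocallyFinite] [AddAction ℤ V]

theorem avg_shift (ha : ActsFreely G) (k : ℤ) (f : V → ℝ) (x : V) :
    avg G (fun z => f (k +ᵥ z)) x = avg G f (k +ᵥ x) := by
  classical
  unfold avg
  have hN : G.neighborFinset (k +ᵥ x) = (G.neighborFinset x).image (fun z => k +ᵥ z) := by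
    ext z
    rw [SimpleGraph.mem_neighborFinset, Finset.mem_image]
    constructor
    · intro h
      refine ⟨(-k) +ᵥ z, ?_, by simp⟩
      rw [SimpleGraph.mem_neighborFinset, ← ha.1 k]
      simpa using h
    · rintro ⟨y, hy, rfl⟩
      rw [SimpleGraph.mem_neighborFinset] at hy
      exact (ha.1 k _ _).2 hy
  have hdeg : G.degree (k +ᵥ x) = G.degree x := by
    rw [← SimpleGraph.card_neighborFinset_eq_degree, hN, Finset.card_image_of_injective _
      (fun a b h => by simpa using h), SimpleGraph.card_neighborFinset_eq_degree]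
  rw [hN, hdeg, Finset.sum_image (fun a _ b _ h => by simpa using h)]

theorem iter_shift (ha : ActsFreely G) (n : ℕ) (k : ℤ) (f : V → ℝ) :
    (avg G)^[n] (fun z => f (k +ᵥ z)) = fun x => (avg G)^[n] f (k +ᵥ x) := by
  induction n with
  | zero => rfl
  | succ n ih =>
    rw [Function.iterate_succ_apply', ih]
    funext x
    rw [avg_shift ha k, Function.iterate_succ_apply']

/-- the function is invariant under the action -/
def Inv (f : V → ℝ) : Prop := ∀ (k : ℤ) (x : V), f (k +ᵥ x) = f x

theorem posDeg (hc : G.Connected) (ha : ActsFreely G) : PosDeg G := by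
  intro x
  have : Nontrivial V := by
    refine ⟨x, (1 : ℤ) +ᵥ x, fun h => ?_⟩
    exact one_ne_zero (ha.2 1 x h.symm)
  exact hc.preconnected.degree_pos_of_nontrivial x

open Classical in
/-- If the quotient is recurrent, nonnegative invariant superharmonic functions are harmonic. -/
theorem superharm_harm (hc : G.Connected) (ha : ActsFreely G) (hr : ¬ QuotientTransient G)
    {w : V → ℝ} (hw : ∀ x, 0 ≤ w x) (hi : Inv w) (hs : ∀ x, avg G w x ≤ w x) : avg G w = w := by
  have hd := posDeg hc ha
  by_contra hne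
  have : ∃ y, avg G w y ≠ w y := by
    by_contra hno
    push Not at hno
    exact hne (funext hno)
  obtain ⟨y, hy⟩ := this
  have hδ : 0 < w y - avg G w y := by
    have := lt_of_le_of_ne (hs y) hy
    linarith
  apply hr
  intro x₀
  set q : V → ℝ := fun z => if z ∈ AddAction.orbit ℤ y then 1 else 0 with hq
  have hq0 : ∀ x, 0 ≤ q x := by
    intro x
    simp only [hq]
    split_ifs <;> norm_num
  have hle : ∀ x, (w y - avg G w y) * q x ≤ w x - avg G w x := by
    intro x
    simp only [hq]
    split_ifs with hx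
    · obtain ⟨k, rfl⟩ := hx
      have h1 : avg G w (k +ᵥ y) = avg G w y := by
        rw [← avg_shift ha]
        congr 1
        funext z
        exact hi k z
      have h2 : w (k +ᵥ y) = w y := hi k y
      simp only [mul_one]
      rw [h1, h2]
    · rw [mul_zero]
      linarith [hs x]
  have hsum := no_charge G hd hw hq0 hδ hle
  obtain ⟨m, hm⟩ := exists_pos G hc hd hq0 (y := y) (by simp [hq]) x₀
  -- `avg^m q ≥ c` on the orbit of `x₀`
  set c := (avg G)^[m] q x₀ with hcdef
  have hqinv : ∀ k : ℤ, (fun z => q (k +ᵥ z)) = q := by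
    intro k
    funext z
    simp only [hq]
    congr 1
    rw [eq_iff_iff]
    constructor
    · rintro ⟨j, hj⟩
      refine ⟨-k + j, ?_⟩
      simp only at hj ⊢
      rw [add_vadd, hj]
      simp
    · rintro ⟨j, hj⟩
      refine ⟨k + j, ?_⟩
      simp only at hj ⊢
      rw [add_vadd, hj]
  have hlow : ∀ x, c * (if x ∈ AddAction.orbit ℤ x₀ then (1 : ℝ) else 0) ≤ (avg G)^[m] q x := by
    intro x
    split_ifs with hx
    · obtain ⟨k, rfl⟩ := hx
      have h1 : (avg G)^[m] q (k +ᵥ x₀) = (avg G)^[m] q x₀ := by
        have h2 := congrFun (iter_shift (G := G) ha m k q) x₀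
        rw [hqinv k] at h2
        exact h2.symm
      simp only [mul_one]
      rw [h1]
    · rw [mul_zero]
      exact iter_nonneg G hd m hq0 x
  have h3 : ∀ n, c * prob G n x₀ (AddAction.orbit ℤ x₀) ≤ (avg G)^[n + m] q x₀ := by
    intro n
    have h4 := iter_mono G n hlow x₀
    rw [iter_smul] at h4
    rw [Function.iterate_add_apply]
    exact h4
  have h5 : Summable fun n => (avg G)^[n + m] q x₀ :=
    (summable_nat_add_iff (f := fun n => (avg G)^[n] q x₀) m).2 (hsum x₀)
  have h6 : Summable fun n => c * prob G n x₀ (AddAction.orbit ℤ x₀) := by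
    refine Summable.of_nonneg_of_le (fun n => mul_nonneg hm.le ?_) h3 h5
    exact iter_nonneg G hd n (fun z => by split_ifs <;> norm_num) x₀
  have h7 := h6.mul_left c⁻¹
  refine h7.congr fun n => ?_
  rw [inv_mul_cancel_left₀ hm.ne']

/-- If the quotient is recurrent, nonnegative invariant superharmonic functions are constant. -/
theorem superharm_const (hc : G.Connected) (ha : ActsFreely G) (hr : ¬ QuotientTransient G)
    {w : V → ℝ} (hw : ∀ x, 0 ≤ w x) (hi : Inv w) (hs : ∀ x, avg G w x ≤ w x) (x y : V) :
    w x = w y := by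
  have hd := posDeg hc ha
  have key : ∀ x y, w x ≤ w y := by
    intro x y
    have h1 : avg G (fun z => min (w z) (w x)) = fun z => min (w z) (w x) := by
      refine superharm_harm hc ha hr (fun z => le_min (hw z) (hw x)) (fun k z => ?_) fun z => ?_
      · simp only [hi k z]
      · refine le_min ((avg_mono G (fun u => min_le_left _ _) z).trans (hs z)) ?_
        refine (avg_mono G (fun u => min_le_right _ _) z).trans ?_
        rw [avg_const G hd]
    have h2 := max_principle G hc hd (f := fun z => min (w z) (w x)) (c := w x)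
      (fun z => (congrFun h1 z).ge) (fun z => min_le_right _ _) (x := x) (min_self _) y
    exact min_eq_right_iff.1 h2
  exact le_antisymm (key x y) (key y x)

/-- One side of the invariance of bounded harmonic functions. -/
theorem diff_nonpos (hc : G.Connected) (ha : ActsFreely G) (hr : ¬ QuotientTransient G)
    {f : V → ℝ} {C : ℝ} (hb : ∀ x, |f x| ≤ C) (hf : avg G f = f) (x : V) :
    f ((1 : ℤ) +ᵥ x) ≤ f x := by
  have hd := posDeg hc ha
  set u : V → ℝ := fun z => f ((1 : ℤ) +ᵥ z) - f z with hu
  have hub : ∀ z, |u z| ≤ 2 * C := by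
    intro z
    simp only [hu]
    calc |f ((1 : ℤ) +ᵥ z) - f z| ≤ |f ((1 : ℤ) +ᵥ z)| + |f z| := abs_sub _ _
      _ ≤ C + C := add_le_add (hb _) (hb _)
      _ = 2 * C := by ring
  have huh : avg G u = u := by
    rw [hu, avg_sub G (fun z => f ((1 : ℤ) +ᵥ z)) f]
    funext z
    rw [avg_shift ha, hf]
  -- the supremum over the orbits
  set U : V → ℝ := fun z => ⨆ k : ℤ, u (k +ᵥ z) with hU
  have hbdd : ∀ z, BddAbove (Set.range fun k : ℤ => u (k +ᵥ z)) := by
    intro z
    refine ⟨2 * C, ?_⟩
    rintro _ ⟨k, rfl⟩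
    exact (le_abs_self _).trans (hub _)
  have hUle : ∀ z, U z ≤ 2 * C := fun z => ciSup_le fun k => (le_abs_self _).trans (hub _)
  have hUinv : Inv U := by
    intro j z
    simp only [hU]
    have : (fun k : ℤ => u (k +ᵥ (j +ᵥ z))) = (fun k : ℤ => u (k +ᵥ z)) ∘ (Equiv.addRight j) := by
      funext k
      simp only [Function.comp_apply, Equiv.coe_addRight, add_vadd]
    rw [this]
    exact (Equiv.addRight j).surjective.iSup_comp (g := fun k : ℤ => u (k +ᵥ z))
  have hUsub : ∀ z, U z ≤ avg G U z := by
    intro z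
    refine ciSup_le fun k => ?_
    have h1 : u (k +ᵥ z) = avg G (fun t => u (k +ᵥ t)) z := by
      rw [avg_shift ha, huh]
    rw [h1]
    exact avg_mono G (fun t => le_ciSup (hbdd t) k) z
  have hconst : ∀ z t, U z = U t := by
    intro z t
    have h1 := superharm_const hc ha hr (w := fun z => 2 * C - U z)
      (fun z => by linarith [hUle z]) (fun k z => by simp only [hUinv k z]) (fun z => by
        have h2 : avg G (fun z => 2 * C - U z) z = 2 * C - avg G U z := by
          rw [avg_sub G (fun _ => 2 * C) U, avg_const G hd]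
        rw [h2]
        linarith [hUsub z]) z t
    linarith
  set M := U x with hM
  have huM : ∀ z, u z ≤ M := by
    intro z
    rw [hM, ← hconst z x]
    have := le_ciSup (hbdd z) 0
    simpa using this
  -- a maximizing sequence of translations
  have hseq : ∀ n : ℕ, ∃ k : ℤ, M - 1 / (n + 1) < u (k +ᵥ x) := by
    intro n
    have h1 : M - 1 / ((n : ℝ) + 1) < U x := by
      have : (0 : ℝ) < 1 / ((n : ℝ) + 1) := by positivity
      linarith
    exact exists_lt_of_lt_ciSup h1
  choose κ hκ using hseq
  -- the limit function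
  have hlim : ∀ z, ∃ l : ℝ, |l| ≤ C ∧ Tendsto (fun n => f (κ n +ᵥ z)) (hyperfilter ℕ : Filter ℕ) (𝓝 l) := by
    intro z
    have h1 : IsCompact (Set.Icc (-C) C) := isCompact_Icc
    have h2 := h1.ultrafilter_le_nhds ((hyperfilter ℕ).map fun n => f (κ n +ᵥ z)) (by
      rw [Filter.le_principal_iff]
      refine Filter.mem_map.2 (Filter.Eventually.of_forall fun n => ?_)
      exact abs_le.1 (hb _))
    obtain ⟨l, hl, hl2⟩ := h2
    exact ⟨l, abs_le.2 hl, hl2⟩
  choose F hFb hF using hlim
  have hFh : avg G F = F := by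
    funext z
    have h1 : Tendsto (fun n => avg G (fun t => f (κ n +ᵥ t)) z) (hyperfilter ℕ : Filter ℕ)
        (𝓝 (avg G F z)) := by
      unfold avg
      exact (tendsto_finsetSum _ fun t _ => hF t).div_const _
    have h2 : (fun n => avg G (fun t => f (κ n +ᵥ t)) z) = fun n => f (κ n +ᵥ z) := by
      funext n
      rw [avg_shift ha, hf]
    rw [h2] at h1
    exact tendsto_nhds_unique h1 (hF z)
  set w : V → ℝ := fun z => F ((1 : ℤ) +ᵥ z) - F z with hw
  have hwh : avg G w = w := by
    rw [hw, avg_sub G (fun z => F ((1 : ℤ) +ᵥ z)) F]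
    funext z
    rw [avg_shift ha, hFh]
  have hwt : ∀ z, Tendsto (fun n => u (κ n +ᵥ z)) (hyperfilter ℕ : Filter ℕ) (𝓝 (w z)) := by
    intro z
    have h1 := (hF ((1 : ℤ) +ᵥ z)).sub (hF z)
    refine h1.congr fun n => ?_
    simp only [hu]
    rw [← add_vadd, ← add_vadd, add_comm]
  have hwM : ∀ z, w z ≤ M := fun z => le_of_tendsto (hwt z) (Filter.Eventually.of_forall fun n => huM _)
  have hwx : w x = M := by
    refine le_antisymm (hwM x) ?_
    have h1 : Tendsto (fun n : ℕ => M - 1 / ((n : ℝ) + 1)) (hyperfilter ℕ : Filter ℕ) (𝓝 (M - 0)) :=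
      (tendsto_const_nhds.sub tendsto_one_div_add_atTop_nhds_zero_nat).mono_left
        (by rw [← Nat.cofinite_eq_atTop]; exact hyperfilter_le_cofinite)
    rw [sub_zero] at h1
    exact le_of_tendsto_of_tendsto' h1 (hwt x) fun n => (hκ n).le
  have hwc : ∀ z, w z = M := fun z => max_principle G hc hd (fun t => (congrFun hwh t).ge) hwM hwx z
  have hFn : ∀ n : ℕ, F ((n : ℤ) +ᵥ x) = F x + n * M := by
    intro n
    induction n with
    | zero => simp
    | succ n ih =>
      have h1 := hwc ((n : ℤ) +ᵥ x)
      simp only [hw] at h1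
      rw [← add_vadd] at h1
      push_cast
      rw [add_comm (n : ℤ) 1]
      linarith
  have hM0 : M ≤ 0 := by
    by_contra hpos
    push Not at hpos
    obtain ⟨n, hn⟩ := exists_nat_gt (2 * C / M)
    rw [div_lt_iff₀ hpos] at hn
    have h1 := hFn n
    have h2 := (abs_le.1 (hFb ((n : ℤ) +ᵥ x))).2
    have h3 := (abs_le.1 (hFb x)).1
    linarith
  have := huM x
  simp only [hu] at this
  linarith

/-- **A connected graph with a free `ℤ`-action and recurrent quotient is Liouville.** -/
theorem liouville_of_recurrent (hc : G.Connected) (ha : ActsFreely G)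
    (hr : ¬ QuotientTransient G) : Liouville G := by
  have hd := posDeg hc ha
  rw [liouville_iff G hd]
  rintro f ⟨C, hC⟩ hf
  have h1 := diff_nonpos hc ha hr hC hf
  have h2 : ∀ x, f x ≤ f ((1 : ℤ) +ᵥ x) := by
    intro x
    have h3 := diff_nonpos hc ha hr (f := fun z => (-1) * f z) (C := C)
      (fun z => by rw [abs_mul, abs_neg, abs_one, one_mul]; exact hC z)
      (by rw [avg_smul, hf]) x
    linarith
  have h4 : ∀ x, f ((1 : ℤ) +ᵥ x) = f x := fun x => le_antisymm (h1 x) (h2 x)
  have hinv : Inv f := by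
    have hn : ∀ (n : ℕ) x, f ((n : ℤ) +ᵥ x) = f x := by
      intro n
      induction n with
      | zero => intro x; simp
      | succ n ih =>
        intro x
        push_cast
        rw [add_vadd, ih, h4]
    intro k x
    obtain ⟨n, rfl | rfl⟩ := k.eq_nat_or_neg
    · exact hn n x
    · have := hn n (-(n : ℤ) +ᵥ x)
      rw [← this]
      simp
  intro x y
  have h5 := superharm_const hc ha hr (w := fun z => f z + C)
    (fun z => by linarith [(abs_le.1 (hC z)).1]) (fun k z => by simp only [hinv k z]) (fun z => by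
      rw [avg_add G f (fun _ => C), avg_const G hd, hf]) x y
  linarith

end Pool.Agent.KS6_89.ZL
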