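import Mathlib
import Pool.Agent.KS6_89.ZL.Pot

/-!
# Simple random walk: paths
-/

set_option autoImplicit false

namespace Pool.Agent.KS6_89.ZL

open Filter MeasureTheory Topology

variable {V : Type} {G : SimpleGraph V} [G.LocallyFinite]

open Classical in
theorem srw_step {Ω : Type} [MeasurableSpace Ω] {x : V} {P : Measure Ω} {X : ℕ → Ω → V}
    (h : IsSRW G x P X) (n : ℕ) (p : ℕ → V) (w : V) :
    P {ω | ∀ i ≤ n + 1, X i ω = Function.update p (n+1) w i}
      = P {ω | ∀ i ≤ n, X i ω = p i} *
        (if G.Adj (p n) w then ((G.degree (p n) : ENNReal))⁻¹ else 0) := by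
  rw [h.law, h.law, Finset.prod_range_succ, ← mul_assoc]
  have h0 : Function.update p (n+1) w 0 = p 0 := Function.update_of_ne (by omega) _ _
  have hn : Function.update p (n+1) w n = p n := Function.update_of_ne (by omega) _ _
  have hn1 : Function.update p (n+1) w (n+1) = w := Function.update_self _ _ _
  rw [h0, hn, hn1]
  congr 2
  refine Finset.prod_congr rfl fun i hi => ?_
  rw [Finset.mem_range] at hi
  rw [Function.update_of_ne (by omega), Function.update_of_ne (by omega)]

open Classical in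
theorem tsum_step (hd : PosDeg G) {f : V → ℝ} (hf : ∀ v, 0 ≤ f v) (x : V) :
    ∑' w : V, ((if G.Adj x w then ((G.degree x : ENNReal))⁻¹ else 0) * ENNReal.ofReal (f w)) =
      ENNReal.ofReal (avg G f x) := by
  rw [tsum_eq_sum (s := G.neighborFinset x)]
  · unfold avg
    have h1 : (0 : ℝ) < G.degree x := by exact_mod_cast hd x
    rw [div_eq_inv_mul, ENNReal.ofReal_mul (by positivity),
      ENNReal.ofReal_sum_of_nonneg (fun y _ => hf y), Finset.mul_sum,
      ENNReal.ofReal_inv_of_pos h1, ENNReal.ofReal_natCast]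
    refine Finset.sum_congr rfl fun y hy => ?_
    rw [SimpleGraph.mem_neighborFinset] at hy
    rw [if_pos hy]
  · intro w hw
    rw [SimpleGraph.mem_neighborFinset] at hw
    rw [if_neg hw, zero_mul]

open Classical in
theorem srw_induct [Countable V] (hd : PosDeg G) {Ω : Type} [MeasurableSpace Ω] {x : V}
    {P : Measure Ω}
    {X : ℕ → Ω → V} (h : IsSRW G x P X) {f : V → ℝ} (hf : ∀ v, 0 ≤ f v) (Q : ℕ → Ω → Prop)
    (h0 : ∀ (n : ℕ) (p : ℕ → V), P {ω | (∀ i ≤ n, X i ω = p i) ∧ Q n ω} ≤
      P {ω | ∀ i ≤ n, X i ω = p i} * ENNReal.ofReal (f (p n))) (N : ℕ) :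
    ∀ (n : ℕ) (p : ℕ → V), P {ω | (∀ i ≤ n, X i ω = p i) ∧ Q (n + N) ω} ≤
      P {ω | ∀ i ≤ n, X i ω = p i} * ENNReal.ofReal ((avg G)^[N] f (p n)) := by
  induction N with
  | zero => exact h0
  | succ N ih =>
    intro n p
    have hsub : {ω | (∀ i ≤ n, X i ω = p i) ∧ Q (n + (N+1)) ω}
        ⊆ ⋃ w : V, {ω | (∀ i ≤ n+1, X i ω = Function.update p (n+1) w i) ∧ Q (n + 1 + N) ω} := by
      intro ω hω
      obtain ⟨h1, h2⟩ := hω
      rw [Set.mem_iUnion]
      refine ⟨X (n+1) ω, fun i hi => ?_, by rwa [show n + 1 + N = n + (N + 1) by ring]⟩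
      by_cases hi' : i = n + 1
      · subst hi'; rw [Function.update_self]
      · rw [Function.update_of_ne hi']; exact h1 i (by omega)
    calc P {ω | (∀ i ≤ n, X i ω = p i) ∧ Q (n + (N+1)) ω}
        ≤ ∑' w : V, P {ω | (∀ i ≤ n+1, X i ω = Function.update p (n+1) w i) ∧ Q (n + 1 + N) ω} :=
          (measure_mono hsub).trans (measure_iUnion_le _)
      _ ≤ ∑' w : V, P {ω | ∀ i ≤ n, X i ω = p i} *
            ((if G.Adj (p n) w then ((G.degree (p n) : ENNReal))⁻¹ else 0) *
              ENNReal.ofReal ((avg G)^[N] f w)) := by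
          refine ENNReal.tsum_le_tsum fun w => ?_
          refine (ih (n+1) (Function.update p (n+1) w)).trans (le_of_eq ?_)
          rw [srw_step h n p w, Function.update_self, mul_assoc]
      _ = P {ω | ∀ i ≤ n, X i ω = p i} *
            ∑' w : V, ((if G.Adj (p n) w then ((G.degree (p n) : ENNReal))⁻¹ else 0) *
              ENNReal.ofReal ((avg G)^[N] f w)) :=
          ENNReal.tsum_mul_left
      _ = P {ω | ∀ i ≤ n, X i ω = p i} * ENNReal.ofReal ((avg G)^[N+1] f (p n)) := by
          rw [tsum_step hd (iter_nonneg G hd N hf), Function.iterate_succ_apply']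

open Classical in
theorem srw_bound [Countable V] (hd : PosDeg G) {Ω : Type} [MeasurableSpace Ω] {x : V}
    {P : Measure Ω}
    {X : ℕ → Ω → V} (h : IsSRW G x P X) {f : V → ℝ} (hf : ∀ v, 0 ≤ f v) (Q : ℕ → Ω → Prop)
    (h0 : ∀ (n : ℕ) (p : ℕ → V), P {ω | (∀ i ≤ n, X i ω = p i) ∧ Q n ω} ≤
      P {ω | ∀ i ≤ n, X i ω = p i} * ENNReal.ofReal (f (p n))) (N : ℕ) :
    P {ω | Q N ω} ≤ ENNReal.ofReal ((avg G)^[N] f x) := by
  have hsub : {ω | Q N ω} ⊆ ⋃ v : V, {ω | (∀ i ≤ 0, X i ω = (fun _ => v) i) ∧ Q (0 + N) ω} := by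
    intro ω hω
    rw [Set.mem_iUnion]
    refine ⟨X 0 ω, fun i hi => ?_, by rwa [zero_add]⟩
    obtain rfl : i = 0 := by omega
    rfl
  calc P {ω | Q N ω} ≤ ∑' v : V, P {ω | (∀ i ≤ 0, X i ω = (fun _ => v) i) ∧ Q (0 + N) ω} :=
        (measure_mono hsub).trans (measure_iUnion_le _)
    _ ≤ ∑' v : V, (if v = x then 1 else 0) * ENNReal.ofReal ((avg G)^[N] f v) := by
        refine ENNReal.tsum_le_tsum fun v => ?_
        refine (srw_induct hd h hf Q h0 N 0 (fun _ => v)).trans (le_of_eq ?_)
        rw [h.law 0 (fun _ => v)]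
        simp
    _ = ENNReal.ofReal ((avg G)^[N] f x) := by
        rw [tsum_eq_single x]
        · simp
        · intro v hv
          rw [if_neg hv, zero_mul]

open Classical in
/-- the probability to be in a set at time `n` -/
theorem srw_mem [Countable V] (hd : PosDeg G) {Ω : Type} [MeasurableSpace Ω] {x : V}
    {P : Measure Ω} {X : ℕ → Ω → V} (h : IsSRW G x P X) (A : Set V) (N : ℕ) :
    P {ω | X N ω ∈ A} ≤ ENNReal.ofReal (prob G N x A) := by
  refine srw_bound hd h (f := fun z => if z ∈ A then 1 else 0)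
    (fun v => by split_ifs <;> norm_num) (fun n ω => X n ω ∈ A) (fun n p => ?_) N
  by_cases hp : p n ∈ A
  · simp only [if_pos hp, ENNReal.ofReal_one, mul_one]
    exact measure_mono fun ω hω => hω.1
  · have : {ω | (∀ i ≤ n, X i ω = p i) ∧ X n ω ∈ A} = ∅ := by
      ext ω
      simp only [Set.mem_ofPred_eq, Set.mem_empty_iff_false, iff_false, not_and]
      intro h1 h2
      rw [h1 n le_rfl] at h2
      exact hp h2
    rw [this]
    simp

open Classical in
/-- the probability of a step of a certain kind at time `n` -/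
theorem srw_rel [Countable V] (hd : PosDeg G) {Ω : Type} [MeasurableSpace Ω] {x : V}
    {P : Measure Ω} {X : ℕ → Ω → V} (h : IsSRW G x P X) (R : V → V → Prop) (N : ℕ) :
    P {ω | R (X N ω) (X (N+1) ω)} ≤
      ENNReal.ofReal ((avg G)^[N] (fun v => avg G (fun w => if R v w then 1 else 0) v) x) := by
  refine srw_bound hd h (f := fun v => avg G (fun w => if R v w then 1 else 0) v)
    (fun v => ?_) (fun n ω => R (X n ω) (X (n+1) ω)) (fun n p => ?_) N
  · have := avg_mono G (f := fun _ => 0) (g := fun w => if R v w then 1 else 0)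
      (fun w => by split_ifs <;> norm_num) v
    rwa [avg_const G hd] at this
  · have hsub : {ω | (∀ i ≤ n, X i ω = p i) ∧ R (X n ω) (X (n+1) ω)}
        ⊆ ⋃ w : V, {ω | (∀ i ≤ n+1, X i ω = Function.update p (n+1) w i) ∧ R (p n) w} := by
      intro ω hω
      obtain ⟨h1, h2⟩ := hω
      rw [Set.mem_iUnion]
      refine ⟨X (n+1) ω, fun i hi => ?_, by rwa [h1 n le_rfl] at h2⟩
      by_cases hi' : i = n + 1
      · subst hi'; rw [Function.update_self]
      · rw [Function.update_of_ne hi']; exact h1 i (by omega)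
    calc P {ω | (∀ i ≤ n, X i ω = p i) ∧ R (X n ω) (X (n+1) ω)}
        ≤ ∑' w : V, P {ω | (∀ i ≤ n+1, X i ω = Function.update p (n+1) w i) ∧ R (p n) w} :=
          (measure_mono hsub).trans (measure_iUnion_le _)
      _ ≤ ∑' w : V, P {ω | ∀ i ≤ n, X i ω = p i} *
            ((if G.Adj (p n) w then ((G.degree (p n) : ENNReal))⁻¹ else 0) *
              ENNReal.ofReal (if R (p n) w then 1 else 0)) := by
          refine ENNReal.tsum_le_tsum fun w => ?_
          by_cases hR : R (p n) w
          · rw [if_pos hR, ENNReal.ofReal_one, mul_one, ← srw_step h n p w]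
            exact measure_mono fun ω hω => hω.1
          · have : {ω | (∀ i ≤ n+1, X i ω = Function.update p (n+1) w i) ∧ R (p n) w} = ∅ := by
              ext ω
              simp only [Set.mem_ofPred_eq, Set.mem_empty_iff_false, iff_false, not_and]
              exact fun _ => hR
            rw [this]
            simp
      _ = P {ω | ∀ i ≤ n, X i ω = p i} *
            ∑' w : V, ((if G.Adj (p n) w then ((G.degree (p n) : ENNReal))⁻¹ else 0) *
              ENNReal.ofReal (if R (p n) w then 1 else 0)) :=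
          ENNReal.tsum_mul_left
      _ = _ := by
          rw [tsum_step hd (fun w => by split_ifs <;> norm_num)]

/-- Borel-Cantelli for the steps -/
theorem ae_rel [Countable V] (hd : PosDeg G) {Ω : Type} [MeasurableSpace Ω] {x : V}
    {P : Measure Ω} {X : ℕ → Ω → V} (h : IsSRW G x P X) (R : V → V → Prop)
    (hs : Summable fun N => (avg G)^[N] (fun v => avg G (fun w => (open Classical in
      if R v w then (1 : ℝ) else 0)) v) x) :
    ∀ᵐ ω ∂P, ∀ᶠ n in atTop, ¬ R (X n ω) (X (n+1) ω) := by
  classical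
  refine ae_eventually_notMem (s := fun n => {ω | R (X n ω) (X (n+1) ω)}) ?_
  refine ne_top_of_le_ne_top ?_ (ENNReal.tsum_le_tsum fun n => srw_rel hd h R n)
  rw [← ENNReal.ofReal_tsum_of_nonneg _ hs]
  · exact ENNReal.ofReal_ne_top
  · intro n
    refine iter_nonneg G hd n (fun v => ?_) x
    have := avg_mono G (f := fun _ => 0) (g := fun w => if R v w then 1 else 0)
      (fun w => by split_ifs <;> norm_num) v
    rwa [avg_const G hd] at this

/-- Borel-Cantelli for the visits -/
theorem ae_mem [Countable V] (hd : PosDeg G) {Ω : Type} [MeasurableSpace Ω] {x : V}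
    {P : Measure Ω} {X : ℕ → Ω → V} (h : IsSRW G x P X) (A : Set V)
    (hs : Summable fun N => prob G N x A) :
    ∀ᵐ ω ∂P, ∀ᶠ n in atTop, X n ω ∉ A := by
  classical
  refine ae_eventually_notMem (s := fun n => {ω | X n ω ∈ A}) ?_
  refine ne_top_of_le_ne_top ?_ (ENNReal.tsum_le_tsum fun n => srw_mem hd h A n)
  rw [← ENNReal.ofReal_tsum_of_nonneg _ hs]
  · exact ENNReal.ofReal_ne_top
  · intro n
    exact iter_nonneg G hd n (fun v => by split_ifs <;> norm_num) x

/-- the walk steps to neighbours -/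
theorem ae_adj [Countable V] (hd : PosDeg G) {Ω : Type} [MeasurableSpace Ω] {x : V}
    {P : Measure Ω} {X : ℕ → Ω → V} (h : IsSRW G x P X) :
    ∀ᵐ ω ∂P, ∀ n, G.Adj (X n ω) (X (n+1) ω) := by
  classical
  rw [ae_all_iff]
  intro n
  rw [ae_iff]
  refine le_antisymm ((srw_rel hd h (fun v w => ¬ G.Adj v w) n).trans (le_of_eq ?_)) bot_le
  have h2 : ∀ f : V → ℝ, (∀ v, f v = 0) → (avg G)^[n] f x = 0 := by
    intro f hf
    have h3 : f = fun _ => 0 := funext hf
    rw [h3, iter_const G hd]
  rw [h2, ENNReal.ofReal_zero]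
  intro v
  unfold avg
  rw [Finset.sum_eq_zero, zero_div]
  intro w hw
  rw [SimpleGraph.mem_neighborFinset] at hw
  rw [if_neg (not_not.2 hw)]

/-- small values of a function whose expectation tends to zero -/
theorem ae_small [Countable V] (hd : PosDeg G) {Ω : Type} [MeasurableSpace Ω] {x : V}
    {P : Measure Ω} {X : ℕ → Ω → V} (h : IsSRW G x P X) {v : V → ℝ} (hv : ∀ z, 0 ≤ v z)
    (ht : Tendsto (fun n => (avg G)^[n] v x) atTop (𝓝 0)) :
    ∀ᵐ ω ∂P, ∀ ε : ℝ, 0 < ε → ∃ᶠ n in atTop, v (X n ω) < ε := by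
  classical
  have key : ∀ (m N : ℕ), ∀ᵐ ω ∂P, ∃ n, N ≤ n ∧ v (X n ω) < 1 / ((m : ℝ) + 1) := by
    intro m N
    have hε : (0 : ℝ) < 1 / ((m : ℝ) + 1) := by positivity
    rw [ae_iff]
    have h1 : ∀ n, N ≤ n → P {ω | ¬ ∃ n, N ≤ n ∧ v (X n ω) < 1 / ((m : ℝ) + 1)} ≤
        ENNReal.ofReal (((m : ℝ) + 1) * (avg G)^[n] v x) := by
      intro n hn
      refine (measure_mono (t := {ω | X n ω ∈ {z | 1 / ((m : ℝ) + 1) ≤ v z}}) ?_).trans
        ((srw_mem hd h _ n).trans (ENNReal.ofReal_le_ofReal ?_))
      · intro ω hω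
        simp only [Set.mem_ofPred_eq, not_exists, not_and, not_lt] at hω ⊢
        exact hω n hn
      · unfold prob
        have h2 := iter_mono G n (f := fun z => if z ∈ {z | 1 / ((m : ℝ) + 1) ≤ v z} then 1 else 0)
          (g := fun z => ((m : ℝ) + 1) * v z) (fun z => by
            split_ifs with hz
            · have hz' : 1 / ((m : ℝ) + 1) ≤ v z := hz
              rw [div_le_iff₀ (by positivity)] at hz'
              linarith
            · exact mul_nonneg (by positivity) (hv z)) x
        rwa [iter_smul] at h2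
    have h3 : Tendsto (fun n => ENNReal.ofReal (((m : ℝ) + 1) * (avg G)^[n] v x)) atTop (𝓝 0) := by
      have := (ENNReal.continuous_ofReal.tendsto (((m : ℝ) + 1) * 0)).comp (ht.const_mul ((m : ℝ) + 1))
      rw [mul_zero, ENNReal.ofReal_zero] at this
      exact this
    exact le_antisymm (ge_of_tendsto h3 (Filter.eventually_atTop.2 ⟨N, h1⟩)) bot_le
  have hall : ∀ᵐ ω ∂P, ∀ m N : ℕ, ∃ n, N ≤ n ∧ v (X n ω) < 1 / ((m : ℝ) + 1) := by
    rw [ae_all_iff]
    intro m
    rw [ae_all_iff]
    exact key m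
  filter_upwards [hall] with ω hω ε hε
  obtain ⟨m, hm⟩ := exists_nat_one_div_lt hε
  rw [Filter.frequently_atTop]
  intro N
  obtain ⟨n, hn, hn2⟩ := hω m N
  exact ⟨n, hn, hn2.trans hm⟩

/-- the walk driven by independent uniform choices of a neighbour at each time for each vertex -/
def drive (x : V) : ℕ → (ℕ × V → V) → V
  | 0, _ => x
  | (n+1), ω => ω (n, drive x n ω)

/-- simple random walk exists -/
theorem exists_srw [Countable V] (hd : PosDeg G) (x : V) :
    ∃ (Ω : Type) (_ : MeasurableSpace Ω) (P : Measure Ω) (X : ℕ → Ω → V), IsSRW G x P X := by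
  classical
  let _ : MeasurableSpace V := ⊤
  have hne : ∀ v, (G.neighborFinset v).Nonempty := by
    intro v
    rw [← Finset.card_pos, SimpleGraph.card_neighborFinset_eq_degree]
    exact hd v
  let μ : ℕ × V → Measure V := fun j => (PMF.uniformOfFinset (G.neighborFinset j.2) (hne j.2)).toMeasure
  have hμ : ∀ j, IsProbabilityMeasure (μ j) := fun j => by
    simp only [μ]
    infer_instance
  have hμ1 : ∀ (j : ℕ × V) (w : V), μ j {w} =
      if G.Adj j.2 w then ((G.degree j.2 : ENNReal))⁻¹ else 0 := by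
    intro j w
    simp only [μ]
    rw [PMF.toMeasure_apply_singleton _ _ (MeasurableSet.singleton w), PMF.uniformOfFinset_apply]
    simp only [SimpleGraph.mem_neighborFinset, SimpleGraph.card_neighborFinset_eq_degree]
  have hmeas : ∀ (n : ℕ) (v : V), MeasurableSet {ω : ℕ × V → V | drive x n ω = v} := by
    intro n
    induction n with
    | zero =>
      intro v
      show MeasurableSet {_ω : ℕ × V → V | x = v}
      exact MeasurableSet.const _
    | succ n ih =>
      intro v
      have : {ω : ℕ × V → V | drive x (n+1) ω = v} =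
          ⋃ u : V, {ω | drive x n ω = u} ∩ {ω | ω (n, u) = v} := by
        ext ω
        simp only [Set.mem_ofPred_eq, Set.mem_iUnion, Set.mem_inter_iff]
        constructor
        · intro h
          exact ⟨_, rfl, h⟩
        · rintro ⟨u, rfl, h⟩
          exact h
      rw [this]
      have hc : ∀ u : V, MeasurableSet ((fun ω : ℕ × V → V => ω (n, u)) ⁻¹' {v}) := fun u =>
        (measurable_pi_apply (n, u) : Measurable fun ω : ℕ × V → V => ω (n, u))
          (MeasurableSet.singleton v)
      exact MeasurableSet.iUnion fun u => (ih u).inter (hc u)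
  refine ⟨ℕ × V → V, inferInstance, Measure.infinitePi μ, drive x, inferInstance, hmeas,
    fun n p => ?_⟩
  by_cases h0 : p 0 = x
  · rw [if_pos h0, one_mul]
    have hset : {ω : ℕ × V → V | ∀ i ≤ n, drive x i ω = p i}
        = Set.pi (((Finset.range n).image (fun i => (i, p i)) : Finset (ℕ × V)) : Set (ℕ × V))
          (fun j => {p (j.1 + 1)}) := by
      ext ω
      rw [Set.mem_pi]
      simp only [Set.mem_ofPred_eq, Finset.coe_image, Finset.coe_range, Set.mem_image,
        Set.mem_Iio, Set.mem_singleton_iff]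
      constructor
      · rintro h j ⟨i, hi, rfl⟩
        have h1 := h (i+1) (by omega)
        have h2 := h i (by omega)
        rw [drive, h2] at h1
        exact h1
      · intro h i
        induction i with
        | zero => intro _; rw [drive, h0]
        | succ i ih =>
          intro hi
          rw [drive, ih (by omega)]
          exact h (i, p i) ⟨i, by omega, rfl⟩
    rw [hset, Measure.infinitePi_pi _ (fun i _ => MeasurableSet.singleton _),
      Finset.prod_image (fun a _ b _ h => (Prod.mk.inj h).1)]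
    refine Finset.prod_congr rfl fun i hi => ?_
    rw [hμ1]
  · rw [if_neg h0, zero_mul]
    have : {ω : ℕ × V → V | ∀ i ≤ n, drive x i ω = p i} = ∅ := by
      ext ω
      simp only [Set.mem_ofPred_eq, Set.mem_empty_iff_false, iff_false]
      intro h
      exact h0 (h 0 (by omega)).symm
    rw [this]; simp

end Pool.Agent.KS6_89.ZL
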