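import Mathlib
import Pool.Agent.KS6_89.ZL.Srw
import Pool.Agent.KS6_89.ZL.Rec

/-!
# The `ℤ`-cover of a graph given by labels of the edges
-/

set_option autoImplicit false

namespace Pool.Agent.KS6_89.ZL

open Filter MeasureTheory Topology

variable {W : Type} (H : SimpleGraph W) (ℓ : W → W → ℤ) (hℓ : ∀ x y, ℓ y x = - ℓ x y)

/-- The cover of `H` with the labels `ℓ`: the edge `x y` lifts to the edges from `(x, s)` to
`(y, s + ℓ x y)`. -/
def tw : SimpleGraph (W × ℤ) where
  Adj v w := H.Adj v.1 w.1 ∧ w.2 = v.2 + ℓ v.1 w.1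
  symm := by
    refine ⟨?_⟩
    rintro v w ⟨h1, h2⟩
    refine ⟨h1.symm, ?_⟩
    rw [hℓ v.1 w.1, h2]
    ring
  loopless := by
    refine ⟨?_⟩
    rintro v ⟨h1, -⟩
    exact H.loopless.irrefl v.1 h1

/-- the action of `ℤ` by translations of the second coordinate -/
@[reducible] def act (W : Type) : AddAction ℤ (W × ℤ) where
  vadd k v := (v.1, k + v.2)
  zero_vadd v := by
    show (v.1, 0 + v.2) = v
    rw [zero_add]
  add_vadd j k v := by
    show (v.1, j + k + v.2) = (v.1, j + (k + v.2))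
    rw [add_assoc]

attribute [local instance] act

theorem vadd_def (k : ℤ) (v : W × ℤ) : k +ᵥ v = (v.1, k + v.2) := rfl

variable {ℓ}

theorem tw_adj (v w : W × ℤ) : (tw H ℓ hℓ).Adj v w ↔ H.Adj v.1 w.1 ∧ w.2 = v.2 + ℓ v.1 w.1 :=
  Iff.rfl

theorem tw_neighborSet (v : W × ℤ) : (tw H ℓ hℓ).neighborSet v =
    (fun y => (y, v.2 + ℓ v.1 y)) '' H.neighborSet v.1 := by
  ext w
  rw [SimpleGraph.mem_neighborSet, tw_adj]
  constructor
  · rintro ⟨h1, h2⟩
    exact ⟨w.1, h1, Prod.ext rfl h2.symm⟩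
  · rintro ⟨y, hy, rfl⟩
    exact ⟨hy, rfl⟩

variable [H.LocallyFinite]

noncomputable instance : (tw H ℓ hℓ).LocallyFinite := fun v =>
  (show ((tw H ℓ hℓ).neighborSet v).Finite by
    rw [tw_neighborSet]
    exact (Set.toFinite _).image _).fintype

open Classical in
theorem tw_neighborFinset (v : W × ℤ) : (tw H ℓ hℓ).neighborFinset v =
    (H.neighborFinset v.1).image (fun y => (y, v.2 + ℓ v.1 y)) := by
  ext w
  rw [SimpleGraph.mem_neighborFinset, Finset.mem_image, tw_adj]
  constructor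
  · rintro ⟨h1, h2⟩
    exact ⟨w.1, by rwa [SimpleGraph.mem_neighborFinset], Prod.ext rfl h2.symm⟩
  · rintro ⟨y, hy, rfl⟩
    rw [SimpleGraph.mem_neighborFinset] at hy
    exact ⟨hy, rfl⟩

theorem tw_degree (v : W × ℤ) : (tw H ℓ hℓ).degree v = H.degree v.1 := by
  classical
  rw [← SimpleGraph.card_neighborFinset_eq_degree, tw_neighborFinset, Finset.card_image_of_injective _
    (fun a b h => (Prod.mk.inj h).1), SimpleGraph.card_neighborFinset_eq_degree]

theorem tw_sum (v : W × ℤ) (F : W × ℤ → ℝ) : ∑ w ∈ (tw H ℓ hℓ).neighborFinset v, F w =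
    ∑ y ∈ H.neighborFinset v.1, F (y, v.2 + ℓ v.1 y) := by
  classical
  rw [tw_neighborFinset, Finset.sum_image (fun a _ b _ h => (Prod.mk.inj h).1)]

theorem tw_avg (F : W × ℤ → ℝ) (v : W × ℤ) :
    avg (tw H ℓ hℓ) F v = avg H (fun y => F (y, v.2 + ℓ v.1 y)) v.1 := by
  unfold avg
  rw [tw_sum, tw_degree]

theorem tw_posDeg (hd : PosDeg H) : PosDeg (tw H ℓ hℓ) := fun v => by
  rw [tw_degree]
  exact hd v.1

theorem tw_avg_fst (f : W → ℝ) : avg (tw H ℓ hℓ) (fun v => f v.1) = fun v => avg H f v.1 := by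
  funext v
  rw [tw_avg]

theorem tw_iter_fst (n : ℕ) (f : W → ℝ) :
    (avg (tw H ℓ hℓ))^[n] (fun v => f v.1) = fun v => (avg H)^[n] f v.1 := by
  induction n with
  | zero => rfl
  | succ n ih =>
    rw [Function.iterate_succ_apply', ih, tw_avg_fst]
    funext v
    rw [Function.iterate_succ_apply']

omit [H.LocallyFinite] in
theorem tw_actsFreely : ActsFreely (tw H ℓ hℓ) := by
  refine ⟨fun k v w => ?_, fun k v h => ?_⟩
  · rw [tw_adj, tw_adj, vadd_def, vadd_def]
    simp only
    constructor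
    · rintro ⟨h1, h2⟩
      exact ⟨h1, by omega⟩
    · rintro ⟨h1, h2⟩
      exact ⟨h1, by omega⟩
  · rw [vadd_def] at h
    have := congrArg Prod.snd h
    simp only at this
    omega

omit [H.LocallyFinite] in
theorem tw_cover : IsCover (tw H ℓ hℓ) H (Prod.fst : W × ℤ → W) := by
  refine ⟨Prod.fst_surjective, fun v w => ?_, fun v => ⟨?_, ?_, ?_⟩⟩
  · constructor
    · intro h
      refine ⟨w.2 - v.2, ?_⟩
      rw [vadd_def]
      exact Prod.ext h (by simp)
    · rintro ⟨k, rfl⟩
      rfl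
  · rintro w hw
    exact hw.1
  · intro w hw w' hw' h
    refine Prod.ext h ?_
    rw [hw.2, hw'.2, h]
  · intro y hy
    exact ⟨(y, v.2 + ℓ v.1 y), ⟨hy, rfl⟩, rfl⟩

theorem tw_fund (g : W → ℤ) : IsFundamentalDomain {v : W × ℤ | v.2 = g v.1} := by
  intro a
  induction a using Quotient.inductionOn with
  | _ v =>
    refine ⟨(v.1, g v.1), ⟨rfl, Quotient.sound ?_⟩, ?_⟩
    · show (v.1, g v.1) ∈ AddAction.orbit ℤ v
      exact ⟨g v.1 - v.2, by simp [vadd_def]⟩
    · rintro w ⟨h1, h2⟩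
      obtain ⟨k, hk⟩ : w ∈ AddAction.orbit ℤ v := Quotient.exact h2
      have h3 : w.1 = v.1 := by
        rw [← hk]
        rfl
      have h4 : w.2 = g w.1 := h1
      exact Prod.ext h3 (by rw [h4, h3])

/-- the probability to cross a labelled edge at the next step -/
noncomputable def tau (ℓ : W → W → ℤ) (x : W) : ℝ :=
  avg H (fun y => if ℓ x y = 0 then 0 else 1) x

theorem tau_nonneg (hd : PosDeg H) (x : W) : 0 ≤ tau H ℓ x := by
  have := avg_mono H (f := fun _ => 0) (g := fun y => if ℓ x y = 0 then 0 else 1)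
    (fun w => by split_ifs <;> norm_num) x
  rwa [avg_const H hd] at this

/-- If the labelled edges are crossed a finite expected number of times, then the cover is not
Liouville. -/
theorem tw_not_liouville (hd : PosDeg H) (x₀ : W)
    (hs : ∀ x, Summable fun n => (avg H)^[n] (tau H ℓ) x) :
    ¬ Liouville (tw H ℓ hℓ) := by
  have hd' := tw_posDeg H hℓ hd
  set χ : W × ℤ → ℝ := fun v => if 1 ≤ v.2 then 1 else 0 with hχ
  set h : ℕ → W × ℤ → ℝ := fun n => (avg (tw H ℓ hℓ))^[n] χ with hh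
  have hstep : ∀ v, |avg (tw H ℓ hℓ) χ v - χ v| ≤ tau H ℓ v.1 := by
    intro v
    have h1 : avg (tw H ℓ hℓ) χ v - χ v =
        avg H (fun y => χ (y, v.2 + ℓ v.1 y) - χ v) v.1 := by
      rw [tw_avg, avg_sub H (fun y => χ (y, v.2 + ℓ v.1 y)) (fun _ => χ v)]
      simp only
      rw [avg_const H hd]
    rw [h1, abs_le]
    have h2 : ∀ y, |χ (y, v.2 + ℓ v.1 y) - χ v| ≤ if ℓ v.1 y = 0 then 0 else 1 := by
      intro y
      simp only [hχ]
      split_ifs with h3 h4 h5 h5 h6 h7 <;> first | (exfalso; omega) | norm_num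
    constructor
    · have h3 := avg_mono H (f := fun y => (-1) * (if ℓ v.1 y = 0 then (0 : ℝ) else 1))
        (g := fun y => χ (y, v.2 + ℓ v.1 y) - χ v) (fun y => by
          have := (abs_le.1 (h2 y)).1
          linarith) v.1
      rw [avg_smul] at h3
      simp only at h3
      have h4 : avg H (fun y => if ℓ v.1 y = 0 then (0 : ℝ) else 1) v.1 = tau H ℓ v.1 := rfl
      linarith
    · exact avg_mono H (fun y => (abs_le.1 (h2 y)).2) v.1
  have hstepn : ∀ n v, |h (n+1) v - h n v| ≤ (avg H)^[n] (tau H ℓ) v.1 := by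
    intro n v
    have h1 : h (n+1) v - h n v =
        (avg (tw H ℓ hℓ))^[n] (fun w => avg (tw H ℓ hℓ) χ w - χ w) v := by
      rw [iter_sub]
      simp only [hh]
      rw [Function.iterate_succ_apply]
    rw [h1, abs_le]
    have h2 := iter_mono (tw H ℓ hℓ) n (f := fun w => avg (tw H ℓ hℓ) χ w - χ w)
      (g := fun w => tau H ℓ w.1) (fun w => (abs_le.1 (hstep w)).2) v
    have h3 := iter_mono (tw H ℓ hℓ) n (f := fun w => (-1) * tau H ℓ w.1)
      (g := fun w => avg (tw H ℓ hℓ) χ w - χ w) (fun w => by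
        linarith [(abs_le.1 (hstep w)).1]) v
    rw [iter_smul, tw_iter_fst] at h3
    rw [tw_iter_fst] at h2
    simp only at h2 h3
    constructor
    · linarith
    · exact h2
  -- the limit
  have hlim : ∀ v, ∃ l, Tendsto (fun n => h n v) atTop (𝓝 l) ∧
      ∀ n, |h n v - l| ≤ ∑' m, (avg H)^[n + m] (tau H ℓ) v.1 := by
    intro v
    have h1 := cauchySeq_of_dist_le_of_summable (f := fun n => h n v) _ (fun n => by
      rw [dist_comm, Real.dist_eq]
      exact hstepn n v) (hs v.1)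
    obtain ⟨l, hl⟩ := cauchySeq_tendsto_of_complete h1
    refine ⟨l, hl, fun n => ?_⟩
    have h2 := dist_le_tsum_of_dist_le_of_tendsto (f := fun n => h n v) _ (fun n => by
      rw [dist_comm, Real.dist_eq]
      exact hstepn n v) (hs v.1) hl n
    rw [Real.dist_eq] at h2
    exact h2
  choose L hL hLd using hlim
  have hLh : avg (tw H ℓ hℓ) L = L := by
    funext v
    have h1 : Tendsto (fun n => avg (tw H ℓ hℓ) (h n) v) atTop (𝓝 (avg (tw H ℓ hℓ) L v)) := by
      unfold avg
      exact (tendsto_finsetSum _ fun w _ => hL w).div_const _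
    have h2 : Tendsto (fun n => h (n+1) v) atTop (𝓝 (L v)) := (tendsto_add_atTop_iff_nat 1).2 (hL v)
    refine tendsto_nhds_unique h1 (h2.congr fun n => ?_)
    simp only [hh]
    rw [Function.iterate_succ_apply']
  have hb0 : ∀ n v, 0 ≤ h n v := fun n v => iter_nonneg _ hd' n (fun w => by
    simp only [hχ]; split_ifs <;> norm_num) v
  have hb1 : ∀ n v, h n v ≤ 1 := by
    intro n v
    have := iter_mono (tw H ℓ hℓ) n (f := χ) (g := fun _ => 1) (fun w => by
      simp only [hχ]; split_ifs <;> norm_num) v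
    rwa [iter_const _ hd'] at this
  have hLb : ∀ v, |L v| ≤ 1 := by
    intro v
    have h1 : 0 ≤ L v := ge_of_tendsto' (hL v) fun n => hb0 n v
    have h2 : L v ≤ 1 := le_of_tendsto' (hL v) fun n => hb1 n v
    rw [abs_le]
    constructor <;> linarith
  -- far up and far down
  have hup : ∀ n x, ∃ S : ℤ, ∀ s, S ≤ s → h n (x, s) = 1 := by
    intro n
    induction n with
    | zero =>
      intro x
      refine ⟨1, fun s hs => ?_⟩
      simp only [hh, hχ, Function.iterate_zero, id_eq]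
      rw [if_pos hs]
    | succ n ih =>
      intro x
      choose S hS using ih
      obtain ⟨B, hB⟩ := ((H.neighborFinset x).image fun y => S y - ℓ x y).bddAbove
      refine ⟨B, fun s hs => ?_⟩
      simp only [hh]
      rw [Function.iterate_succ_apply', tw_avg]
      simp only
      have : ∀ y ∈ H.neighborFinset x, (avg (tw H ℓ hℓ))^[n] χ (y, s + ℓ x y) = 1 := by
        intro y hy
        have h1 : S y - ℓ x y ≤ B := hB (by
          rw [Finset.coe_image]
          exact ⟨y, hy, rfl⟩)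
        exact hS y _ (by omega)
      rw [avg_congr_nb H (f := fun y => (avg (tw H ℓ hℓ))^[n] χ (y, s + ℓ x y)) (g := fun _ => 1) this,
        avg_const H hd]
  have hdown : ∀ n x, ∃ S : ℤ, ∀ s, s ≤ S → h n (x, s) = 0 := by
    intro n
    induction n with
    | zero =>
      intro x
      refine ⟨0, fun s hs => ?_⟩
      simp only [hh, hχ, Function.iterate_zero, id_eq]
      rw [if_neg (by omega)]
    | succ n ih =>
      intro x
      choose S hS using ih
      obtain ⟨B, hB⟩ := ((H.neighborFinset x).image fun y => S y - ℓ x y).bddBelow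
      refine ⟨B, fun s hs => ?_⟩
      simp only [hh]
      rw [Function.iterate_succ_apply', tw_avg]
      simp only
      have : ∀ y ∈ H.neighborFinset x, (avg (tw H ℓ hℓ))^[n] χ (y, s + ℓ x y) = 0 := by
        intro y hy
        have h1 : B ≤ S y - ℓ x y := hB (by
          rw [Finset.coe_image]
          exact ⟨y, hy, rfl⟩)
        exact hS y _ (by omega)
      rw [avg_congr_nb H (f := fun y => (avg (tw H ℓ hℓ))^[n] χ (y, s + ℓ x y)) (g := fun _ => 0) this,
        avg_const H hd]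
  -- small tails
  have htail : Tendsto (fun n => ∑' m, (avg H)^[n + m] (tau H ℓ) x₀) atTop (𝓝 0) := by
    have := tendsto_sum_nat_add fun n => (avg H)^[n] (tau H ℓ) x₀
    refine this.congr fun n => ?_
    refine tsum_congr fun m => ?_
    rw [add_comm]
  obtain ⟨n, hn⟩ := (htail.eventually (gt_mem_nhds (show (0 : ℝ) < 1 / 2 by norm_num))).exists
  obtain ⟨S1, hS1⟩ := hup n x₀
  obtain ⟨S0, hS0⟩ := hdown n x₀
  rw [liouville_iff _ hd']
  intro hL'
  have h1 := hL' L ⟨1, hLb⟩ hLh (x₀, S1) (x₀, S0)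
  have h2 := hLd (x₀, S1) n
  have h3 := hLd (x₀, S0) n
  rw [hS1 S1 le_rfl] at h2
  rw [hS0 S0 le_rfl] at h3
  simp only at h2 h3
  have h4 := (abs_le.1 h2).2
  have h5 := (abs_le.1 h3).1
  linarith

/-- The visits of the translates of the fundamental domain `{(x, g x)}`. -/
theorem tw_visits [Countable W] (hd : PosDeg H)
    (hs : ∀ x, Summable fun n => (avg H)^[n] (tau H ℓ) x)
    (htr : ∀ x y, Summable fun n => prob H n x {y})
    {v : W → ℝ} (hv : ∀ x, 0 ≤ v x) (hvt : ∀ x, Tendsto (fun n => (avg H)^[n] v x) atTop (𝓝 0))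
    (g : W → ℤ)
    (hpath : ∀ y : ℕ → W, (∀ n, H.Adj (y n) (y (n+1))) → (∀ w, ∀ᶠ n in atTop, y n ≠ w) →
      (∀ ε : ℝ, 0 < ε → ∃ᶠ n in atTop, v (y n) < ε) → ∀ k, ∃ᶠ n in atTop, g (y n) = k) :
    VisitsAll (tw H ℓ hℓ) {v : W × ℤ | v.2 = g v.1} := by
  classical
  have hd' := tw_posDeg H hℓ hd
  refine ⟨fun x => exists_srw hd' x, fun x Ω _ P X hX => ?_⟩
  have h1 := ae_adj hd' hX
  have h2 : ∀ᵐ ω ∂P, ∀ w : W, ∀ᶠ n in atTop, (X n ω).1 ≠ w := by
    rw [ae_all_iff]
    intro w
    refine ae_mem hd' hX {v | v.1 = w} ?_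
    refine (htr x.1 w).congr fun n => ?_
    unfold prob
    have h3 := congrFun (tw_iter_fst H hℓ n (fun z => if z ∈ ({w} : Set W) then 1 else 0)) x
    exact h3.symm
  have h3 : ∀ᵐ ω ∂P, ∀ ε : ℝ, 0 < ε → ∃ᶠ n in atTop, v (X n ω).1 < ε := by
    refine ae_small hd' hX (v := fun z => v z.1) (fun z => hv _) ?_
    rw [show (fun n => (avg (tw H ℓ hℓ))^[n] (fun z => v z.1) x) = fun n => (avg H)^[n] v x.1 from
      funext fun n => congrFun (tw_iter_fst H hℓ n v) x]
    exact hvt x.1
  have h4 : ∀ᵐ ω ∂P, ∀ᶠ n in atTop, ¬ (X (n+1) ω).2 ≠ (X n ω).2 := by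
    refine ae_rel hd' hX (fun a b => b.2 ≠ a.2) ?_
    refine (hs x.1).congr fun n => ?_
    rw [← congrFun (tw_iter_fst H hℓ n (tau H ℓ)) x]
    refine congrArg (fun f => (avg (tw H ℓ hℓ))^[n] f x) (funext fun z => ?_)
    rw [tw_avg]
    unfold tau
    refine congrArg (fun f => avg H f z.1) (funext fun y => ?_)
    by_cases h : ℓ z.1 y = 0 <;> simp [h]
  filter_upwards [h1, h2, h3, h4] with ω w1 w2 w3 w4 k
  -- the second coordinate is eventually constant
  obtain ⟨N, hN⟩ := eventually_atTop.1 w4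
  have hconst : ∀ n, N ≤ n → (X n ω).2 = (X N ω).2 := by
    intro n hn
    induction n, hn using Nat.le_induction with
    | base => rfl
    | succ n hn ih =>
      rw [← ih]
      exact not_not.1 (hN n hn)
  have h5 := hpath (fun n => (X n ω).1) (fun n => (w1 n).1) w2 w3 ((X N ω).2 - k)
  refine (h5.and_eventually (eventually_ge_atTop N)).mono fun n hn => ?_
  refine ⟨((X n ω).1, g (X n ω).1), rfl, ?_⟩
  rw [vadd_def]
  refine Prod.ext rfl ?_
  simp only
  rw [hn.1, hconst n hn.2]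
  ring

theorem tw_quotientLiouville (hL : Liouville H) :
    QuotientLiouville (tw H ℓ hℓ) := by
  intro f hf hh a b
  set F : W → ℝ := fun x => f (Quotient.mk (AddAction.orbitRel ℤ (W × ℤ)) (x, 0)) with hF
  have hmk : ∀ v : W × ℤ, f (Quotient.mk (AddAction.orbitRel ℤ (W × ℤ)) v) = F v.1 := by
    intro v
    have : (Quotient.mk (AddAction.orbitRel ℤ (W × ℤ)) v) =
        Quotient.mk (AddAction.orbitRel ℤ (W × ℤ)) (v.1, 0) := by
      refine Quotient.sound ?_
      show v ∈ AddAction.orbit ℤ (v.1, (0 : ℤ))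
      exact ⟨v.2, by simp [vadd_def]⟩
    rw [this]
  obtain ⟨C, hC⟩ := hf
  have h1 := hL F ⟨C, fun x => hC _⟩ (fun x => by
    have h2 := hh (x, 0)
    rw [tw_sum H hℓ (x, 0) (fun w => f (Quotient.mk (AddAction.orbitRel ℤ (W × ℤ)) w)),
      tw_degree] at h2
    simp only [hmk] at h2
    exact h2)
  induction a using Quotient.inductionOn with
  | _ v =>
    induction b using Quotient.inductionOn with
    | _ w =>
      rw [hmk, hmk]
      exact h1 _ _

end Pool.Agent.KS6_89.ZL
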