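import Mathlib
import Pool.Agent.KS6_89.ZL.Green
import Pool.Agent.KS6_89.ZL.Tw

/-!
# Reversibility; the expected number of crossings of the labelled edges
-/

set_option autoImplicit false

namespace Pool.Agent.KS6_89.ZL

open Filter MeasureTheory Topology

variable {W : Type} (H : SimpleGraph W) [H.LocallyFinite]

theorem iter_sum (hd : PosDeg H) {ι : Type} (n : ℕ) (s : Finset ι) (f : ι → W → ℝ) :
    (avg H)^[n] (fun x => ∑ i ∈ s, f i x) = fun x => ∑ i ∈ s, (avg H)^[n] (f i) x := by
  classical
  induction s using Finset.induction_on with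
  | empty =>
    simp only [Finset.sum_empty]
    exact iter_const H hd n 0
  | insert a s ha ih =>
    simp only [Finset.sum_insert ha]
    rw [iter_add H n (f a) (fun x => ∑ i ∈ s, f i x), ih]

open Classical in
theorem prob_eq (n : ℕ) (x y : W) :
    prob H n x {y} = (avg H)^[n] (fun z => if z = y then 1 else 0) x := by
  unfold prob
  refine congrArg (fun f => (avg H)^[n] f x) (funext fun z => ?_)
  simp

/-- simple random walk is reversible -/
theorem reversible (hd : PosDeg H) (n : ℕ) : ∀ x y : W,
    (H.degree x : ℝ) * prob H n x {y} = H.degree y * prob H n y {x} := by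
  classical
  induction n with
  | zero =>
    intro x y
    rw [prob_eq, prob_eq]
    simp only [Function.iterate_zero, id_eq]
    by_cases h : x = y
    · subst h
      rfl
    · rw [if_neg h, if_neg (fun h' => h h'.symm), mul_zero, mul_zero]
  | succ n ih =>
    intro x y
    have hpos : ∀ z, (H.degree z : ℝ) ≠ 0 := fun z => by
      have := hd z
      positivity
    have h1 : (H.degree x : ℝ) * prob H (n+1) x {y} = ∑ z ∈ H.neighborFinset x, prob H n z {y} := by
      unfold prob
      rw [Function.iterate_succ_apply']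
      unfold avg
      rw [mul_div_cancel₀ _ (hpos x)]
    have h2 : prob H (n+1) y {x} =
        ∑ z ∈ H.neighborFinset x, (H.degree z : ℝ)⁻¹ * prob H n y {z} := by
      rw [prob_eq, Function.iterate_succ_apply]
      have h3 : avg H (fun z => if z = x then (1 : ℝ) else 0) =
          fun w => ∑ z ∈ H.neighborFinset x, (H.degree z : ℝ)⁻¹ * (if w = z then (1 : ℝ) else 0) := by
        funext w
        unfold avg
        rw [Finset.sum_ite_eq']
        simp only [mul_ite, mul_one, mul_zero]
        rw [Finset.sum_ite_eq]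
        simp only [SimpleGraph.mem_neighborFinset]
        by_cases h : H.Adj w x
        · rw [if_pos h, if_pos h.symm, one_div]
        · rw [if_neg h, if_neg (fun h' => h h'.symm), zero_div]
      rw [h3, iter_sum H hd]
      refine Finset.sum_congr rfl fun z _ => ?_
      rw [iter_smul, prob_eq]
    rw [h1, h2, Finset.mul_sum]
    refine Finset.sum_congr rfl fun z _ => ?_
    have h4 := ih z y
    calc prob H n z {y} = (H.degree z : ℝ)⁻¹ * ((H.degree z : ℝ) * prob H n z {y}) := by
          rw [inv_mul_cancel_left₀ (hpos z)]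
      _ = (H.degree z : ℝ)⁻¹ * ((H.degree y : ℝ) * prob H n y {z}) := by rw [h4]
      _ = _ := by ring

/-- the iterates depend on finitely many values -/
theorem iter_local (n : ℕ) : ∀ x : W, ∃ B : Finset W, ∀ f g : W → ℝ, (∀ y ∈ B, f y ≤ g y) →
    (avg H)^[n] f x ≤ (avg H)^[n] g x := by
  classical
  induction n with
  | zero =>
    intro x
    exact ⟨{x}, fun f g h => h x (by simp)⟩
  | succ n ih =>
    intro x
    choose B hB using ih
    refine ⟨(H.neighborFinset x).biUnion B, fun f g h => ?_⟩
    rw [Function.iterate_succ_apply', Function.iterate_succ_apply']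
    unfold avg
    refine div_le_div_of_nonneg_right (Finset.sum_le_sum fun y hy => ?_) (Nat.cast_nonneg _)
    exact hB y f g fun z hz => h z (Finset.mem_biUnion.2 ⟨y, hy, hz⟩)

/-- the expected number of crossings of the labelled edges is finite -/
theorem tau_summable (hc : H.Connected) (hd : PosDeg H) (ht : Transient H) (o : W)
    {ℓ : W → W → ℤ} (e : ℕ → W × W)
    (he : ∀ x y, ℓ x y ≠ 0 → ∃ i, (x = (e i).1 ∧ y = (e i).2) ∨ (x = (e i).2 ∧ y = (e i).1))
    (hsum : Summable fun i => green H o (e i).1 + green H o (e i).2) (x : W) :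
    Summable fun n => (avg H)^[n] (tau H ℓ) x := by
  classical
  refine summable_move H hc hd (tau_nonneg H hd) (x := o) ?_
  have hpos : ∀ z, (0 : ℝ) < H.degree z := fun z => by exact_mod_cast hd z
  have hgpos := green_pos H hc hd ht o
  set f : ℕ → W → ℝ := fun i y =>
    (H.degree (e i).1 : ℝ)⁻¹ * (if y = (e i).1 then 1 else 0) +
      (H.degree (e i).2 : ℝ)⁻¹ * (if y = (e i).2 then 1 else 0) with hf
  have hfn : ∀ i n, (avg H)^[n] (f i) o =
      (H.degree o : ℝ)⁻¹ * (prob H n (e i).1 {o} + prob H n (e i).2 {o}) := by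
    intro i n
    simp only [hf]
    rw [iter_add H n (fun y => (H.degree (e i).1 : ℝ)⁻¹ * (if y = (e i).1 then 1 else 0))
      (fun y => (H.degree (e i).2 : ℝ)⁻¹ * (if y = (e i).2 then 1 else 0))]
    simp only
    rw [iter_smul, iter_smul]
    simp only
    rw [← prob_eq, ← prob_eq]
    have key : ∀ a, (H.degree a : ℝ)⁻¹ * prob H n o {a} = (H.degree o : ℝ)⁻¹ * prob H n a {o} := by
      intro a
      have h1 := reversible H hd n o a
      rw [inv_mul_eq_div, inv_mul_eq_div, div_eq_div_iff (hpos a).ne' (hpos o).ne']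
      linarith
    rw [key, key]
    ring
  refine summable_of_sum_range_le
    (c := (H.degree o : ℝ)⁻¹ * ∑' i, (green H o (e i).1 + green H o (e i).2))
    (fun n => iter_nonneg H hd n (tau_nonneg H hd) o) fun N => ?_
  -- a finite set of indices
  choose B hB using fun n => iter_local H n o
  choose! idx hidx using he
  set Bs : Finset W := (Finset.range N).biUnion B with hBs
  set I : Finset ℕ := (Bs ×ˢ (Bs.biUnion fun y => H.neighborFinset y)).image
    (fun p => idx p.1 p.2) with hI
  have hpt : ∀ y ∈ Bs, tau H ℓ y ≤ ∑ i ∈ I, f i y := by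
    intro y hy
    have h1 : ∀ z ∈ H.neighborFinset y, (if ℓ y z = 0 then (0 : ℝ) else 1) ≤
        ∑ i ∈ I, ((if y = (e i).1 ∧ z = (e i).2 then 1 else 0) +
          (if y = (e i).2 ∧ z = (e i).1 then 1 else 0)) := by
      intro z hz
      split_ifs with h0
      · exact Finset.sum_nonneg fun i _ => by positivity
      · have hmem : idx y z ∈ I := Finset.mem_image.2 ⟨(y, z), Finset.mem_product.2
          ⟨hy, Finset.mem_biUnion.2 ⟨y, hy, hz⟩⟩, rfl⟩
        refine le_trans ?_ (Finset.single_le_sum (f := fun i =>
          ((if y = (e i).1 ∧ z = (e i).2 then (1 : ℝ) else 0) +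
          (if y = (e i).2 ∧ z = (e i).1 then 1 else 0))) (fun i _ => by positivity) hmem)
        rcases hidx y z h0 with h | h
        · rw [if_pos h]
          have : (0 : ℝ) ≤ (if y = (e (idx y z)).2 ∧ z = (e (idx y z)).1 then 1 else 0) := by
            positivity
          linarith
        · rw [if_pos h]
          have : (0 : ℝ) ≤ (if y = (e (idx y z)).1 ∧ z = (e (idx y z)).2 then 1 else 0) := by
            positivity
          linarith
    have h2 : ∀ i, ∑ z ∈ H.neighborFinset y, ((if y = (e i).1 ∧ z = (e i).2 then (1 : ℝ) else 0) +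
          (if y = (e i).2 ∧ z = (e i).1 then 1 else 0)) ≤
        (if y = (e i).1 then 1 else 0) + (if y = (e i).2 then 1 else 0) := by
      intro i
      rw [Finset.sum_add_distrib]
      have h3 : ∀ a b : W, ∑ z ∈ H.neighborFinset y, (if y = a ∧ z = b then (1 : ℝ) else 0) ≤
          if y = a then 1 else 0 := by
        intro a b
        by_cases h : y = a
        · simp only [h, true_and, if_true]
          rw [Finset.sum_ite_eq']
          split_ifs <;> norm_num
        · simp [h]
      exact add_le_add (h3 _ _) (h3 _ _)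
    unfold tau avg
    rw [div_le_iff₀ (hpos y)]
    refine (Finset.sum_le_sum h1).trans ?_
    rw [Finset.sum_comm, Finset.sum_mul]
    refine Finset.sum_le_sum fun i _ => (h2 i).trans (le_of_eq ?_)
    simp only [hf]
    by_cases ha : y = (e i).1 <;> by_cases hb : y = (e i).2
    · rw [if_pos ha, if_pos hb, ← ha, ← hb]
      have := (hpos y).ne'
      field_simp
    · rw [if_pos ha, if_neg hb, ← ha, mul_one, mul_zero, add_zero, add_zero,
        inv_mul_cancel₀ (hpos y).ne']
    · rw [if_neg ha, if_pos hb, ← hb, mul_one, mul_zero, zero_add, zero_add,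
        inv_mul_cancel₀ (hpos y).ne']
    · rw [if_neg ha, if_neg hb]
      ring
  have h3 : ∀ n ∈ Finset.range N, (avg H)^[n] (tau H ℓ) o ≤
      ∑ i ∈ I, (avg H)^[n] (f i) o := by
    intro n hn
    have h4 := hB n (tau H ℓ) (fun y => ∑ i ∈ I, f i y) fun y hy =>
      hpt y (Finset.mem_biUnion.2 ⟨n, hn, hy⟩)
    rwa [iter_sum H hd] at h4
  refine (Finset.sum_le_sum h3).trans ?_
  rw [Finset.sum_comm]
  have h5 : ∀ i ∈ I, ∑ n ∈ Finset.range N, (avg H)^[n] (f i) o ≤
      (H.degree o : ℝ)⁻¹ * (green H o (e i).1 + green H o (e i).2) := by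
    intro i _
    rw [Finset.sum_congr rfl fun n _ => hfn i n, ← Finset.mul_sum, Finset.sum_add_distrib]
    refine mul_le_mul_of_nonneg_left (add_le_add ?_ ?_) (by have := hpos o; positivity)
    · exact (transient_all H hc hd ht _ o).sum_le_tsum _ fun n _ => prob_nonneg H hd n _ _
    · exact (transient_all H hc hd ht _ o).sum_le_tsum _ fun n _ => prob_nonneg H hd n _ _
  refine (Finset.sum_le_sum h5).trans ?_
  rw [← Finset.mul_sum]
  refine mul_le_mul_of_nonneg_left ?_ (by have := hpos o; positivity)
  exact hsum.sum_le_tsum _ fun i _ => (add_pos (hgpos _) (hgpos _)).le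

end Pool.Agent.KS6_89.ZL
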