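import Mathlib
import Pool.Agent.KS6_89.ZL.Comb
import Pool.Agent.KS6_89.ZL.Rev

/-!
# Every transient Liouville graph with a cycle is the quotient of a counterexample
-/

set_option autoImplicit false

namespace Pool.Agent.KS6_89.ZL

open Filter MeasureTheory Topology

variable {W : Type}

/-- a sequence of integers which takes each value infinitely often -/
def alpha (n : ℕ) : ℤ := Equiv.intEquivNat.symm (Nat.unpair n).2

theorem alpha_spec (k : ℤ) (N : ℕ) : ∃ m, N ≤ m ∧ alpha m = k :=
  ⟨Nat.pair N (Equiv.intEquivNat k), Nat.left_le_pair _ _, by simp [alpha]⟩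

theorem walk_rch {H : SimpleGraph W} {u w : W} (p : H.Walk u w) :
    ∀ x ∈ p.support, Rch H {z | z ∈ p.support} u x := by
  induction p with
  | nil =>
    intro x hx
    rw [SimpleGraph.Walk.support_nil, List.mem_singleton] at hx
    rw [hx]
    exact Relation.ReflTransGen.refl
  | @cons a b c h p ih =>
    intro x hx
    rw [SimpleGraph.Walk.support_cons, List.mem_cons] at hx
    rcases hx with rfl | hx
    · exact Relation.ReflTransGen.refl
    · refine Relation.ReflTransGen.head ⟨h, ?_, ?_⟩ ((ih x hx).mono fun z hz => ?_)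
      · show a ∈ (SimpleGraph.Walk.cons h p).support
        simp
      · show b ∈ (SimpleGraph.Walk.cons h p).support
        simp
      · show z ∈ (SimpleGraph.Walk.cons h p).support
        rw [SimpleGraph.Walk.support_cons]
        exact List.mem_cons_of_mem _ hz

theorem Rch.le {H H' : SimpleGraph W} (hle : H' ≤ H) {S : Set W} {x y : W} (hr : Rch H' S x y) :
    Rch H S x y :=
  Relation.ReflTransGen.mono (fun _ _ hab => ⟨hle hab.1, hab.2.1, hab.2.2⟩) _ _ hr

theorem countable_of_connected (H : SimpleGraph W) [H.LocallyFinite] (hc : H.Connected) :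
    Countable W := by
  classical
  obtain ⟨o⟩ := hc.nonempty
  set S : ℕ → Finset W := fun n => Nat.rec {o} (fun _ s => s.biUnion fun x => H.neighborFinset x) n
    with hS
  have h1 : ∀ x, ∃ n, x ∈ S n := by
    intro x
    have h2 := Rch.univ hc o x
    unfold Rch at h2
    induction h2 with
    | refl => exact ⟨0, by simp [hS]⟩
    | @tail y z _ hyz ih =>
      obtain ⟨n, hn⟩ := ih
      refine ⟨n + 1, ?_⟩
      show z ∈ (S n).biUnion fun x => H.neighborFinset x
      exact Finset.mem_biUnion.2 ⟨y, hn, by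
        rw [SimpleGraph.mem_neighborFinset]
        exact hyz.1⟩
  have h2 : (Set.univ : Set W) ⊆ ⋃ n, (S n : Set W) := fun x _ => by
    obtain ⟨n, hn⟩ := h1 x
    exact Set.mem_iUnion.2 ⟨n, hn⟩
  exact Set.countable_univ_iff.1
    ((Set.countable_iUnion fun n => (S n).countable_toSet).mono h2)

/-- a sequence of natural numbers that tends to infinity with upward steps at most one takes all
large values -/
theorem hits_of_steps {L : ℕ → ℕ} (hs : ∀ n, L (n+1) ≤ L n + 1) (hi : ∀ i, ∃ n, ∀ m, n ≤ m → i < L m)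
    (N m : ℕ) (hm : L N ≤ m) : ∃ n, N ≤ n ∧ L n = m := by
  have hex : ∃ n, N ≤ n ∧ m ≤ L n := by
    obtain ⟨n, hn⟩ := hi m
    exact ⟨max n N, le_max_right _ _, (hn _ (le_max_left _ _)).le⟩
  have h1 := Nat.find_spec hex
  set n := Nat.find hex with hn
  refine ⟨n, h1.1, le_antisymm ?_ h1.2⟩
  by_cases hnN : n = N
  · rw [hnN]
    exact hm
  · have h2 : N < n := lt_of_le_of_ne h1.1 (Ne.symm hnN)
    have h3 := Nat.find_min hex (m := n - 1) (by omega)
    have h4 : L (n - 1) < m := by
      by_contra hcon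
      push Not at hcon
      exact h3 ⟨by omega, hcon⟩
    have h5 := hs (n - 1)
    rw [show n - 1 + 1 = n by omega] at h5
    omega

attribute [local instance] act

/-- the data of a counterexample over `H` -/
theorem exists_bad (H : SimpleGraph W) [H.LocallyFinite] (hc : H.Connected) (hL : Liouville H)
    (ht : Transient H) (hac : ¬ H.IsAcyclic) :
    ∃ (ℓ : W → W → ℤ) (hℓ : ∀ x y, ℓ y x = - ℓ x y) (g : W → ℤ),
      (∀ x, Summable fun n => (avg H)^[n] (tau H ℓ) x) ∧
      (tw H ℓ hℓ).Connected ∧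
      VisitsAll (tw H ℓ hℓ) {v : W × ℤ | v.2 = g v.1} ∧
      ((tw H ℓ hℓ).induce {v : W × ℤ | v.2 = g v.1}).Connected := by
  classical
  rw [SimpleGraph.isAcyclic_iff_forall_adj_isBridge] at hac
  push Not at hac
  obtain ⟨u, w, huw, hbr⟩ := hac
  rw [SimpleGraph.isBridge_iff, not_not] at hbr
  have hnt : Nontrivial W := ⟨u, w, huw.ne⟩
  have hd : PosDeg H := fun x => hc.preconnected.degree_pos_of_nontrivial x
  have hcount : Countable W := countable_of_connected H hc
  set H' := H.deleteEdges {s(u, w)} with hH'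
  have hle : H' ≤ H := SimpleGraph.deleteEdges_le _
  obtain ⟨p⟩ := hbr
  set K0 : Finset W := p.support.toFinset with hK0
  have hK0s : (K0 : Set W) = {z | z ∈ p.support} := by
    ext z
    simp [hK0]
  have hgood : Good H u K0 := by
    refine ⟨by simp [hK0], fun x hx => ?_⟩
    rw [hK0s]
    exact Rch.le hle (walk_rch p x (by simpa [hK0] using hx))
  have hdet : Rch H' (K0 : Set W) u w := by
    rw [hK0s]
    exact walk_rch p w p.end_mem_support
  obtain ⟨lev, a, b, Ks, P1, P2, P3, P4, P5, P6, P7⟩ := levels hc (green_pos H hc hd ht u)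
    (super_connected H hc hd ht u) (sub_connected H hc hd ht u hL) (small_edge H hc hd ht u) K0 hgood
  have hu0 : lev u = 0 := P1 u hgood.1
  have hw0 : lev w = 0 := P1 w (by simp [hK0])
  set g : W → ℤ := fun x => alpha (lev x) with hg
  set Sp : W → W → Prop := fun x y => ∃ i, (x = b i ∧ y = a i) ∨ (x = a i ∧ y = b i) with hSp
  have hSpsymm : ∀ x y, Sp x y ↔ Sp y x := by
    intro x y
    constructor
    · rintro ⟨i, h | h⟩
      · exact ⟨i, Or.inr ⟨h.2, h.1⟩⟩
      · exact ⟨i, Or.inl ⟨h.2, h.1⟩⟩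
    · rintro ⟨i, h | h⟩
      · exact ⟨i, Or.inr ⟨h.2, h.1⟩⟩
      · exact ⟨i, Or.inl ⟨h.2, h.1⟩⟩
  have hSplev : ∀ x y, Sp x y → lev x ≠ lev y := by
    rintro x y ⟨i, ⟨rfl, rfl⟩ | ⟨rfl, rfl⟩⟩
    · rw [(P2 i).2.1, (P2 i).2.2.1]
      omega
    · rw [(P2 i).2.1, (P2 i).2.2.1]
      omega
  set ℓ : W → W → ℤ := fun x y => if Sp x y then g y - g x else
    (if x = u ∧ y = w then 1 else 0) - (if x = w ∧ y = u then 1 else 0) with hℓdef
  have hℓ : ∀ x y, ℓ y x = - ℓ x y := by
    intro x y
    simp only [hℓdef]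
    by_cases h : Sp x y
    · rw [if_pos h, if_pos ((hSpsymm x y).1 h)]
      ring
    · rw [if_neg h, if_neg (fun h' => h ((hSpsymm x y).2 h'))]
      simp only [and_comm]
      ring
  have hℓSp : ∀ x y, Sp x y → ℓ x y = g y - g x := fun x y h => by simp only [hℓdef, if_pos h]
  have hℓ0 : ∀ x y, lev x = lev y → ¬ (x = u ∧ y = w) → ¬ (x = w ∧ y = u) → ℓ x y = 0 := by
    intro x y h h1 h2
    simp only [hℓdef]
    rw [if_neg (fun h' => hSplev x y h' h), if_neg h1, if_neg h2]
    ring
  have hℓuw : ℓ u w = 1 := by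
    have h0 : ℓ u w = if Sp u w then g w - g u else
      (if u = u ∧ w = w then 1 else 0) - (if u = w ∧ w = u then 1 else 0) := rfl
    rw [h0, if_neg (fun h' => hSplev u w h' (by rw [hu0, hw0])), if_pos ⟨rfl, rfl⟩,
      if_neg (fun h => huw.ne h.1)]
    ring
  -- the expected number of crossings
  set e : ℕ → W × W := fun n => Nat.casesOn n (u, w) (fun i => (a i, b i)) with he
  have hsum : Summable fun i => green H u (e i).1 + green H u (e i).2 := by
    refine (summable_nat_add_iff 1).1 ?_
    refine Summable.of_nonneg_of_le (f := fun i : ℕ => ((1 : ℝ) / 2) ^ i) (fun i => ?_) (fun i => ?_)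
      summable_geometric_two
    · exact (add_pos (green_pos H hc hd ht u _) (green_pos H hc hd ht u _)).le
    · exact (P2 i).2.2.2.le
  have hedge : ∀ x y, ℓ x y ≠ 0 → ∃ i, (x = (e i).1 ∧ y = (e i).2) ∨ (x = (e i).2 ∧ y = (e i).1) := by
    intro x y h
    by_cases hS : Sp x y
    · obtain ⟨i, hi⟩ := hS
      exact ⟨i + 1, hi.symm⟩
    · by_cases h1 : x = u ∧ y = w
      · exact ⟨0, Or.inl h1⟩
      · by_cases h2 : x = w ∧ y = u
        · exact ⟨0, Or.inr h2⟩
        · exfalso
          apply h
          simp only [hℓdef]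
          rw [if_neg hS, if_neg h1, if_neg h2]
          ring
  have htau := tau_summable H hc hd ht u e hedge hsum
  -- the path property
  have hpath : ∀ y : ℕ → W, (∀ n, H.Adj (y n) (y (n+1))) → (∀ w, ∀ᶠ n in atTop, y n ≠ w) →
      (∀ ε : ℝ, 0 < ε → ∃ᶠ n in atTop, green H u (y n) < ε) → ∀ k, ∃ᶠ n in atTop, g (y n) = k := by
    intro y hy1 hy2 hy3 k
    have hinf : ∀ i, ∃ n, ∀ m, n ≤ m → i < lev (y m) := by
      intro i
      have h1 : ∀ᶠ n in atTop, ∀ z ∈ Ks i, y n ≠ z := by
        rw [Filter.eventually_all_finset]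
        intro z _
        exact hy2 z
      obtain ⟨N, hN⟩ := eventually_atTop.1 h1
      have hδ : 0 < (Ks i).inf' (P7 i) (green H u) :=
        (Finset.lt_inf'_iff _).2 fun z _ => green_pos H hc hd ht u z
      obtain ⟨n, hn, hn2⟩ := (Filter.frequently_atTop.1 (hy3 _ hδ)) N
      refine ⟨n, fun m hm => ?_⟩
      induction m, hm using Nat.le_induction with
      | base => exact P5 i _ fun z hz => (Finset.lt_inf'_iff _).1 hn2 z hz
      | succ m hm ih =>
        exact P6 i _ _ (hy1 m) ih fun h => hN (m+1) (by omega) _ h rfl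
    rw [Filter.frequently_atTop]
    intro N
    obtain ⟨m, hm, hmk⟩ := alpha_spec k (lev (y N))
    obtain ⟨n, hn, hn2⟩ := hits_of_steps (L := fun n => lev (y n)) (fun n => P4 _ _ (hy1 n)) hinf N m hm
    refine ⟨n, hn, ?_⟩
    simp only [hg]
    rw [hn2, hmk]
  -- the fundamental domain is connected
  set D : Set (W × ℤ) := {v | v.2 = g v.1} with hD
  set d : W → D := fun x => ⟨(x, g x), rfl⟩ with hddef
  have hstep : ∀ x y, H.Adj x y → ℓ x y = g y - g x →
      ((tw H ℓ hℓ).induce D).Reachable (d x) (d y) := by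
    intro x y hxy h
    refine SimpleGraph.Adj.reachable ?_
    show (tw H ℓ hℓ).Adj (x, g x) (y, g y)
    rw [tw_adj]
    refine ⟨hxy, ?_⟩
    simp only
    rw [h]
    ring
  have hdet' : ((tw H ℓ hℓ).induce D).Reachable (d u) (d w) := by
    have h1 : ∀ z, Rch H' (K0 : Set W) u z → ((tw H ℓ hℓ).induce D).Reachable (d u) (d z) := by
      intro z hz
      unfold Rch at hz
      induction hz with
      | refl => exact SimpleGraph.Reachable.refl _
      | @tail x y _ hxy ih =>
        refine ih.trans (hstep x y (hle hxy.1) ?_)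
        have hx := P1 x hxy.2.1
        have hy := P1 y hxy.2.2
        have hadj : H.Adj x y ∧ s(x, y) ∉ ({s(u, w)} : Set (Sym2 W)) := by
          have := hxy.1
          rwa [hH', SimpleGraph.deleteEdges_adj] at this
        have hne : s(x, y) ≠ s(u, w) := hadj.2
        rw [hℓ0 x y (by rw [hx, hy]) (fun h => hne (by rw [h.1, h.2]))
          (fun h => hne (by rw [h.1, h.2]; exact Sym2.eq_swap))]
        simp only [hg]
        rw [hx, hy]
        ring
    exact h1 w hdet
  have hlvl : ∀ i x y, lev x = i → Rch H {z | lev z = i} x y →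
      ((tw H ℓ hℓ).induce D).Reachable (d x) (d y) := by
    intro i x y hx hr
    unfold Rch at hr
    induction hr with
    | refl => exact SimpleGraph.Reachable.refl _
    | @tail y z _ hyz ih =>
      refine ih.trans ?_
      have h1 : lev y = i := hyz.2.1
      have h2 : lev z = i := hyz.2.2
      by_cases c1 : y = u ∧ z = w
      · rw [c1.1, c1.2]
        exact hdet'
      · by_cases c2 : y = w ∧ z = u
        · rw [c2.1, c2.2]
          exact hdet'.symm
        · refine hstep y z hyz.1 ?_
          rw [hℓ0 y z (by rw [h1, h2]) c1 c2]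
          simp only [hg]
          rw [h1, h2]
          ring
  have hallD : ∀ i x, lev x = i → ((tw H ℓ hℓ).induce D).Reachable (d u) (d x) := by
    intro i
    induction i with
    | zero =>
      intro x hx
      exact hlvl 0 u x hu0 (P3 0 u x hu0 hx)
    | succ i ih =>
      intro x hx
      have h1 := ih (b i) (P2 i).2.1
      have h2 := hstep (b i) (a i) (P2 i).1 (hℓSp _ _ ⟨i, Or.inl ⟨rfl, rfl⟩⟩)
      have h3 := hlvl (i+1) (a i) x (P2 i).2.2.1 (P3 (i+1) (a i) x (P2 i).2.2.1 hx)
      exact (h1.trans h2).trans h3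
  have hDc : ((tw H ℓ hℓ).induce D).Connected := by
    have hne : Nonempty D := ⟨d u⟩
    refine ⟨fun p q => ?_⟩
    have hp : d p.1.1 = p := Subtype.ext (Prod.ext rfl p.2.symm)
    have hq : d q.1.1 = q := Subtype.ext (Prod.ext rfl q.2.symm)
    rw [← hp, ← hq]
    exact (hallD _ _ rfl).symm.trans (hallD _ _ rfl)
  -- the cover is connected
  have hlayer : ∀ (k : ℤ) (x : W), (tw H ℓ hℓ).Reachable (u, k + g u) (x, k + g x) := by
    intro k x
    have h1 := hallD _ x rfl
    let φ : ((tw H ℓ hℓ).induce D) →g (tw H ℓ hℓ) :=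
      ⟨fun v => (v.1.1, k + v.1.2), by
        rintro v v' hvv'
        have h2 : (tw H ℓ hℓ).Adj v.1 v'.1 := hvv'
        rw [tw_adj] at h2 ⊢
        refine ⟨h2.1, ?_⟩
        simp only
        rw [h2.2]
        ring⟩
    exact h1.map φ
  have hup : ∀ k : ℤ, (tw H ℓ hℓ).Reachable (u, k + g u) (u, (k + 1) + g u) := by
    intro k
    have h1 : (tw H ℓ hℓ).Adj (u, k + g u) (w, (k + 1) + g w) := by
      rw [tw_adj]
      refine ⟨huw, ?_⟩
      simp only
      rw [hℓuw]
      simp only [hg]
      rw [hu0, hw0]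
      ring
    exact h1.reachable.trans (hlayer (k+1) w).symm
  have hall : ∀ k : ℤ, (tw H ℓ hℓ).Reachable (u, 0 + g u) (u, k + g u) := by
    intro k
    induction k using Int.induction_on with
    | zero => exact SimpleGraph.Reachable.refl _
    | succ n ih => exact ih.trans (hup n)
    | pred n ih =>
      refine ih.trans ?_
      have h1 := hup (-(n : ℤ) - 1)
      rw [show -(n : ℤ) - 1 + 1 = -(n : ℤ) by ring] at h1
      exact h1.symm
  have hGc : (tw H ℓ hℓ).Connected := by
    have hne : Nonempty (W × ℤ) := ⟨(u, 0)⟩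
    refine ⟨fun x y => ?_⟩
    have key : ∀ v : W × ℤ, (tw H ℓ hℓ).Reachable (u, 0 + g u) v := by
      intro v
      have h1 := (hall (v.2 - g v.1)).trans (hlayer (v.2 - g v.1) v.1)
      rwa [show ((v.1, v.2 - g v.1 + g v.1) : W × ℤ) = v from Prod.ext rfl (by ring)] at h1
    exact (key x).symm.trans (key y)
  exact ⟨ℓ, hℓ, g, htau, hGc, tw_visits H hℓ hd htau (transient_all H hc hd ht)
    (fun x => (green_pos H hc hd ht u x).le) (avg_iter_green_tendsto H hc hd ht u) g hpath, hDc⟩

end Pool.Agent.KS6_89.ZL
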