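import Mathlib
import Pool.Agent.KS6_89.ZL.Tw

/-!
# The bounded harmonic functions of the covers
-/

set_option autoImplicit false

namespace Pool.Agent.KS6_89.ZL

open Filter MeasureTheory Topology

variable {W : Type} (H : SimpleGraph W) {ℓ : W → W → ℤ} (hℓ : ∀ x y, ℓ y x = - ℓ x y)
  [H.LocallyFinite]

/-- the expected number of crossings of the labelled edges -/
noncomputable def cross (ℓ : W → W → ℤ) (x : W) : ℝ := ∑' n, (avg H)^[n] (tau H ℓ) x

section

variable (hd : PosDeg H) (hs : ∀ x, Summable fun n => (avg H)^[n] (tau H ℓ) x)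

include hd hs

theorem cross_nonneg (x : W) : 0 ≤ cross H ℓ x :=
  tsum_nonneg fun n => iter_nonneg H hd n (tau_nonneg H hd) x

theorem iter_cross (n : ℕ) (x : W) :
    (avg H)^[n] (cross H ℓ) x = ∑' m, (avg H)^[n + m] (tau H ℓ) x := by
  induction n generalizing x with
  | zero => simp [cross]
  | succ n ih =>
    rw [Function.iterate_succ_apply']
    unfold avg at ih ⊢
    rw [Finset.sum_congr rfl fun y _ => ih y]
    rw [← Summable.tsum_finsetSum (fun y _ => by
      have := (summable_nat_add_iff (f := fun m => (avg H)^[m] (tau H ℓ) y) n).2 (hs y)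
      refine this.congr fun m => ?_
      rw [add_comm]
      rfl), ← tsum_div_const]
    refine tsum_congr fun m => ?_
    rw [show n + 1 + m = (n + m) + 1 by ring]
    rw [Function.iterate_succ_apply']

theorem iter_cross_tendsto (x : W) :
    Tendsto (fun n => (avg H)^[n] (cross H ℓ) x) atTop (𝓝 0) := by
  have h1 := tendsto_sum_nat_add fun n => (avg H)^[n] (tau H ℓ) x
  refine h1.congr fun n => ?_
  rw [iter_cross H hd hs n x]
  refine tsum_congr fun m => ?_
  rw [add_comm]

omit hs in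
theorem avg_abs_le {f g : W → ℝ} (h : ∀ y, |f y| ≤ g y) (x : W) : |avg H f x| ≤ avg H g x := by
  rw [abs_le]
  constructor
  · have h1 := avg_mono H (f := fun y => (-1) * g y) (g := f) (fun y => by
      linarith [(abs_le.1 (h y)).1]) x
    rw [avg_smul] at h1
    linarith
  · exact avg_mono H (fun y => (abs_le.1 (h y)).2) x

/-- Lemma on limits: a bounded function which is nearly harmonic. -/
theorem near_harmonic {V : Type} (G : SimpleGraph V) [G.LocallyFinite] (hdG : PosDeg G)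
    {π : V → W} (hπ : ∀ f : W → ℝ, avg G (fun v => f (π v)) = fun v => avg H f (π v))
    {f : V → ℝ} {C : ℝ} (hC : 0 ≤ C) (hb : ∀ x, |f x| ≤ C)
    (hf : ∀ x, |avg G f x - f x| ≤ 2 * C * tau H ℓ (π x)) :
    ∃ h : V → ℝ, avg G h = h ∧ (∀ x, |h x| ≤ C) ∧
      (∀ x, Tendsto (fun n => (avg G)^[n] f x) atTop (𝓝 (h x))) ∧
      ∀ x, |f x - h x| ≤ 2 * C * cross H ℓ (π x) := by
  have hiterπ : ∀ (n : ℕ) (f : W → ℝ), (avg G)^[n] (fun v => f (π v)) =
      fun v => (avg H)^[n] f (π v) := by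
    intro n f
    induction n with
    | zero => rfl
    | succ n ih =>
      rw [Function.iterate_succ_apply', ih, hπ]
      funext v
      rw [Function.iterate_succ_apply']
  have hstepn : ∀ n v, |(avg G)^[n+1] f v - (avg G)^[n] f v| ≤
      2 * C * (avg H)^[n] (tau H ℓ) (π v) := by
    intro n v
    have h1 : (avg G)^[n+1] f v - (avg G)^[n] f v = (avg G)^[n] (fun w => avg G f w - f w) v := by
      rw [iter_sub]
      simp only
      rw [Function.iterate_succ_apply]
    rw [h1, abs_le]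
    have h2 := iter_mono G n (f := fun w => avg G f w - f w)
      (g := fun w => (2 * C) * tau H ℓ (π w)) (fun w => (abs_le.1 (hf w)).2) v
    have h3 := iter_mono G n (f := fun w => (-(2 * C)) * tau H ℓ (π w))
      (g := fun w => avg G f w - f w) (fun w => by
        linarith [(abs_le.1 (hf w)).1]) v
    rw [iter_smul, hiterπ] at h2 h3
    simp only at h2 h3
    constructor
    · linarith
    · exact h2
  have hsum : ∀ v, Summable fun n => 2 * C * (avg H)^[n] (tau H ℓ) (π v) :=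
    fun v => (hs (π v)).mul_left _
  have hlim : ∀ v, ∃ l, Tendsto (fun n => (avg G)^[n] f v) atTop (𝓝 l) ∧
      |f v - l| ≤ 2 * C * cross H ℓ (π v) := by
    intro v
    have h1 := cauchySeq_of_dist_le_of_summable (f := fun n => (avg G)^[n] f v) _ (fun n => by
      rw [dist_comm, Real.dist_eq]
      exact hstepn n v) (hsum v)
    obtain ⟨l, hl⟩ := cauchySeq_tendsto_of_complete h1
    refine ⟨l, hl, ?_⟩
    have h2 := dist_le_tsum_of_dist_le_of_tendsto₀ (f := fun n => (avg G)^[n] f v) _ (fun n => by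
      rw [dist_comm, Real.dist_eq]
      exact hstepn n v) (hsum v) hl
    rw [Real.dist_eq, tsum_mul_left] at h2
    exact h2
  choose h hh hhd using hlim
  refine ⟨h, ?_, ?_, hh, hhd⟩
  · funext v
    have h1 : Tendsto (fun n => avg G ((avg G)^[n] f) v) atTop (𝓝 (avg G h v)) := by
      unfold avg
      exact (tendsto_finsetSum _ fun w _ => hh w).div_const _
    have h2 : Tendsto (fun n => (avg G)^[n+1] f v) atTop (𝓝 (h v)) :=
      (tendsto_add_atTop_iff_nat 1).2 (hh v)
    refine tendsto_nhds_unique h1 (h2.congr fun n => ?_)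
    rw [Function.iterate_succ_apply']
  · intro v
    have h1 : ∀ n, |(avg G)^[n] f v| ≤ C := by
      intro n
      rw [abs_le]
      have h2 := iter_mono G n (f := fun _ => -C) (g := f) (fun w => (abs_le.1 (hb w)).1) v
      have h3 := iter_mono G n (f := f) (g := fun _ => C) (fun w => (abs_le.1 (hb w)).2) v
      rw [iter_const G hdG] at h2 h3
      exact ⟨h2, h3⟩
    rw [abs_le]
    exact ⟨ge_of_tendsto' (hh v) fun n => (abs_le.1 (h1 n)).1,
      le_of_tendsto' (hh v) fun n => (abs_le.1 (h1 n)).2⟩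

end

/-- boundary values -/
noncomputable def bv (x₀ : W) (F : W × ℤ → ℝ) (k : ℤ) : ℝ :=
  limUnder atTop fun n : ℕ => (avg H)^[n] (fun x => F (x, k)) x₀

section

variable (hd : PosDeg H) (hs : ∀ x, Summable fun n => (avg H)^[n] (tau H ℓ) x)
  (hL : Liouville H) (x₀ : W)

include hd hs hL in
/-- a bounded harmonic function has boundary values -/
theorem exists_bv {F : W × ℤ → ℝ} {C : ℝ} (hC : 0 ≤ C) (hb : ∀ v, |F v| ≤ C)
    (hF : avg (tw H ℓ hℓ) F = F) (k : ℤ) :
    Tendsto (fun n : ℕ => (avg H)^[n] (fun x => F (x, k)) x₀) atTop (𝓝 (bv H x₀ F k)) ∧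
      |bv H x₀ F k| ≤ C ∧ ∀ x, |F (x, k) - bv H x₀ F k| ≤ 2 * C * cross H ℓ x := by
  have hf : ∀ x, |avg H (fun x => F (x, k)) x - F (x, k)| ≤ 2 * C * tau H ℓ x := by
    intro x
    have h1 : F (x, k) = avg H (fun y => F (y, k + ℓ x y)) x := by
      have := congrFun hF (x, k)
      rw [tw_avg] at this
      exact this.symm
    have h2 : avg H (fun x => F (x, k)) x - F (x, k) =
        avg H (fun y => F (y, k) - F (y, k + ℓ x y)) x := by
      rw [avg_sub H (fun y => F (y, k)) (fun y => F (y, k + ℓ x y))]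
      simp only
      rw [← h1]
    rw [h2]
    have h3 := avg_abs_le H hd (f := fun y => F (y, k) - F (y, k + ℓ x y))
      (g := fun y => (2 * C) * (if ℓ x y = 0 then 0 else 1)) (fun y => by
        split_ifs with h
        · rw [h, add_zero, sub_self, abs_zero, mul_zero]
        · rw [mul_one]
          calc |F (y, k) - F (y, k + ℓ x y)| ≤ |F (y, k)| + |F (y, k + ℓ x y)| := abs_sub _ _
            _ ≤ C + C := add_le_add (hb _) (hb _)
            _ = 2 * C := by ring) x
    rw [avg_smul] at h3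
    exact h3
  obtain ⟨h, h1, h2, h3, h4⟩ := near_harmonic H hd hs H hd (π := id) (fun f => rfl) hC
    (f := fun x => F (x, k)) (fun x => hb _) hf
  have hconst := (liouville_iff H hd).1 hL h ⟨C, h2⟩ h1
  have hbv : bv H x₀ F k = h x₀ := (h3 x₀).limUnder_eq
  refine ⟨?_, ?_, fun x => ?_⟩
  · rw [hbv]
    exact h3 x₀
  · rw [hbv]
    exact h2 x₀
  · rw [hbv, hconst x₀ x]
    exact h4 x

include hd hs in
/-- every bounded function on `ℤ` is a boundary function -/
theorem exists_ext {φ : ℤ → ℝ} {C : ℝ} (hC : 0 ≤ C) (hφ : ∀ k, |φ k| ≤ C) :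
    ∃ F : W × ℤ → ℝ, avg (tw H ℓ hℓ) F = F ∧ (∀ v, |F v| ≤ C) ∧
      (∀ v, Tendsto (fun n : ℕ => (avg (tw H ℓ hℓ))^[n] (fun w => φ w.2) v) atTop (𝓝 (F v))) ∧
      ∀ v, |φ v.2 - F v| ≤ 2 * C * cross H ℓ v.1 := by
  refine near_harmonic H hd hs (tw H ℓ hℓ) (tw_posDeg H hℓ hd) (π := Prod.fst)
    (fun f => tw_avg_fst H hℓ f) hC (f := fun w => φ w.2) (fun w => hφ _) fun v => ?_
  have h1 : avg (tw H ℓ hℓ) (fun w => φ w.2) v - φ v.2 =
      avg H (fun y => φ (v.2 + ℓ v.1 y) - φ v.2) v.1 := by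
    rw [tw_avg, avg_sub H (fun y => φ (v.2 + ℓ v.1 y)) (fun _ => φ v.2)]
    simp only
    rw [avg_const H hd]
  rw [h1]
  have h3 := avg_abs_le H hd (f := fun y => φ (v.2 + ℓ v.1 y) - φ v.2)
    (g := fun y => (2 * C) * (if ℓ v.1 y = 0 then 0 else 1)) (fun y => by
      split_ifs with h
      · rw [h, add_zero, sub_self, abs_zero, mul_zero]
      · rw [mul_one]
        calc |φ (v.2 + ℓ v.1 y) - φ v.2| ≤ |φ (v.2 + ℓ v.1 y)| + |φ v.2| := abs_sub _ _
          _ ≤ C + C := add_le_add (hφ _) (hφ _)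
          _ = 2 * C := by ring) v.1
  rw [avg_smul] at h3
  exact h3

include hd hs in
theorem bv_of_close {F : W × ℤ → ℝ} {C : ℝ} {c : ℝ} {k : ℤ}
    (h : ∀ x, |c - F (x, k)| ≤ 2 * C * cross H ℓ x) : bv H x₀ F k = c := by
  refine Tendsto.limUnder_eq ?_
  have h1 : ∀ n : ℕ, |(avg H)^[n] (fun x => F (x, k)) x₀ - c| ≤
      (2 * C) * (avg H)^[n] (cross H ℓ) x₀ := by
    intro n
    have h2 := iter_mono H n (f := fun x => F (x, k) - c) (g := fun x => (2 * C) * cross H ℓ x)
      (fun x => by linarith [(abs_le.1 (h x)).1]) x₀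
    have h3 := iter_mono H n (f := fun x => (-(2 * C)) * cross H ℓ x) (g := fun x => F (x, k) - c)
      (fun x => by linarith [(abs_le.1 (h x)).2]) x₀
    rw [iter_smul, iter_sub H n (fun x => F (x, k)) (fun _ => c), iter_const H hd] at h2 h3
    simp only at h2 h3
    rw [abs_le]
    constructor
    · linarith
    · exact h2
  have h4 : Tendsto (fun n : ℕ => (2 * C) * (avg H)^[n] (cross H ℓ) x₀) atTop (𝓝 0) := by
    have := (iter_cross_tendsto H hd hs x₀).const_mul (2 * C)
    rwa [mul_zero] at this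
  rw [tendsto_iff_dist_tendsto_zero]
  exact squeeze_zero (fun n => dist_nonneg) (fun n => by rw [Real.dist_eq]; exact h1 n) h4

include hd hs hL in
theorem bv_inj {F F' : W × ℤ → ℝ} {C C' : ℝ} (hC : 0 ≤ C) (hC' : 0 ≤ C') (hb : ∀ v, |F v| ≤ C)
    (hb' : ∀ v, |F' v| ≤ C') (hF : avg (tw H ℓ hℓ) F = F) (hF' : avg (tw H ℓ hℓ) F' = F')
    (h : bv H x₀ F = bv H x₀ F') : F = F' := by
  have hclose : ∀ v, |F v - F' v| ≤ (2 * C + 2 * C') * cross H ℓ v.1 := by
    intro v
    have h1 := (exists_bv H hℓ hd hs hL x₀ hC hb hF v.2).2.2 v.1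
    have h2 := (exists_bv H hℓ hd hs hL x₀ hC' hb' hF' v.2).2.2 v.1
    rw [← h] at h2
    have h3 : F v - F' v = (F (v.1, v.2) - bv H x₀ F v.2) - (F' (v.1, v.2) - bv H x₀ F v.2) := by
      ring
    rw [h3]
    refine (abs_sub _ _).trans ((add_le_add h1 h2).trans (le_of_eq ?_))
    ring
  have hiter : ∀ n : ℕ, (avg (tw H ℓ hℓ))^[n] (fun w => F w - F' w) = fun w => F w - F' w := by
    intro n
    induction n with
    | zero => rfl
    | succ n ih =>
      rw [Function.iterate_succ_apply', ih, avg_sub (tw H ℓ hℓ) F F', hF, hF']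
  funext v
  have h1 : ∀ n : ℕ, |F v - F' v| ≤ (2 * C + 2 * C') * (avg H)^[n] (cross H ℓ) v.1 := by
    intro n
    have h2 := iter_mono (tw H ℓ hℓ) n (f := fun w => F w - F' w)
      (g := fun w => (2 * C + 2 * C') * cross H ℓ w.1) (fun w => (abs_le.1 (hclose w)).2) v
    have h3 := iter_mono (tw H ℓ hℓ) n (f := fun w => (-(2 * C + 2 * C')) * cross H ℓ w.1)
      (g := fun w => F w - F' w) (fun w => by linarith [(abs_le.1 (hclose w)).1]) v
    rw [iter_smul, hiter, tw_iter_fst] at h2 h3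
    simp only at h2 h3
    rw [abs_le]
    constructor
    · linarith
    · exact h2
  have h4 : Tendsto (fun n : ℕ => (2 * C + 2 * C') * (avg H)^[n] (cross H ℓ) v.1) atTop (𝓝 0) := by
    have := (iter_cross_tendsto H hd hs v.1).const_mul (2 * C + 2 * C')
    rwa [mul_zero] at this
  have h5 : |F v - F' v| ≤ 0 := ge_of_tendsto' h4 h1
  have h6 := abs_nonpos_iff.1 h5
  linarith

attribute [local instance] act

include hd hs hL x₀ in
/-- **The bounded harmonic functions of the cover are the bounded functions on `ℤ`.** -/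
theorem boundary : BoundaryIsZ (tw H ℓ hℓ) := by
  have hd' := tw_posDeg H hℓ hd
  have hbh : ∀ F, IsBH (tw H ℓ hℓ) F → ∃ C, 0 ≤ C ∧ (∀ v, |F v| ≤ C) ∧ avg (tw H ℓ hℓ) F = F := by
    rintro F ⟨⟨C, hC⟩, hF⟩
    exact ⟨C, (abs_nonneg _).trans (hC (x₀, 0)), hC, (harm_iff _ hd' F).1 hF⟩
  have hmk : ∀ F (C : ℝ), (∀ v, |F v| ≤ C) → avg (tw H ℓ hℓ) F = F → IsBH (tw H ℓ hℓ) F :=
    fun F C hC hF => ⟨⟨C, hC⟩, (harm_iff _ hd' F).2 hF⟩
  -- the representation of `F` by its boundary values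
  have hrep : ∀ F, IsBH (tw H ℓ hℓ) F → ∀ v, Tendsto (fun n : ℕ =>
      (avg (tw H ℓ hℓ))^[n] (fun w => bv H x₀ F w.2) v) atTop (𝓝 (F v)) := by
    intro F hF
    obtain ⟨C, hC, hb, hh⟩ := hbh F hF
    have h1 := fun k => (exists_bv H hℓ hd hs hL x₀ hC hb hh k).2.1
    obtain ⟨F', g1, g2, g3, g4⟩ := exists_ext H hℓ hd hs hC h1
    have h2 : bv H x₀ F' = bv H x₀ F := by
      funext k
      exact bv_of_close H hd hs x₀ (C := C) fun x => g4 (x, k)
    have h3 := bv_inj H hℓ hd hs hL x₀ hC hC g2 hb g1 hh h2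
    rw [← h3]
    rw [h3]
    intro v
    have := g3 v
    rwa [h3] at this
  refine ⟨bv H x₀, ?_, ?_, ?_, ?_, ?_, ?_, ?_⟩
  · intro F hF
    obtain ⟨C, hC, hb, hh⟩ := hbh F hF
    exact ⟨C, fun k => (exists_bv H hℓ hd hs hL x₀ hC hb hh k).2.1⟩
  · rintro φ ⟨C, hφ⟩
    have hC : 0 ≤ C := (abs_nonneg _).trans (hφ 0)
    obtain ⟨F, g1, g2, g3, g4⟩ := exists_ext H hℓ hd hs hC hφ
    refine ⟨F, ⟨hmk F C g2 g1, ?_⟩, ?_⟩
    · funext k
      exact bv_of_close H hd hs x₀ (C := C) fun x => g4 (x, k)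
    · rintro F' ⟨hF', hF'2⟩
      obtain ⟨C', hC', hb', hh'⟩ := hbh F' hF'
      refine bv_inj H hℓ hd hs hL x₀ hC' hC hb' g2 hh' g1 ?_
      rw [hF'2]
      funext k
      exact (bv_of_close H hd hs x₀ (C := C) fun x => g4 (x, k)).symm
  · intro a F F' hF hF'
    obtain ⟨C, hC, hb, hh⟩ := hbh F hF
    obtain ⟨C', hC', hb', hh'⟩ := hbh F' hF'
    funext k
    refine Tendsto.limUnder_eq ?_
    have h1 := (exists_bv H hℓ hd hs hL x₀ hC hb hh k).1
    have h2 := (exists_bv H hℓ hd hs hL x₀ hC' hb' hh' k).1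
    refine ((h1.const_mul a).add h2).congr fun n => ?_
    rw [iter_add H n (fun x => a * F (x, k)) (fun x => F' (x, k)), iter_smul]
  · intro F C hF
    constructor
    · intro hb k
      have hC : 0 ≤ C := (abs_nonneg _).trans (hb (x₀, 0))
      obtain ⟨-, -, -, hh⟩ := hbh F hF
      exact (exists_bv H hℓ hd hs hL x₀ hC hb hh k).2.1
    · intro hb v
      have h1 := hrep F hF v
      have h2 : ∀ n : ℕ, |(avg (tw H ℓ hℓ))^[n] (fun w => bv H x₀ F w.2) v| ≤ C := by
        intro n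
        have h3 := iter_mono (tw H ℓ hℓ) n (f := fun _ => -C) (g := fun w => bv H x₀ F w.2)
          (fun w => (abs_le.1 (hb w.2)).1) v
        have h4 := iter_mono (tw H ℓ hℓ) n (f := fun w => bv H x₀ F w.2) (g := fun _ => C)
          (fun w => (abs_le.1 (hb w.2)).2) v
        rw [iter_const _ hd'] at h3 h4
        rw [abs_le]
        exact ⟨h3, h4⟩
      rw [abs_le]
      exact ⟨ge_of_tendsto' h1 fun n => (abs_le.1 (h2 n)).1,
        le_of_tendsto' h1 fun n => (abs_le.1 (h2 n)).2⟩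
  · intro F hF
    obtain ⟨C, hC, hb, hh⟩ := hbh F hF
    constructor
    · intro h0 k
      exact ge_of_tendsto' (exists_bv H hℓ hd hs hL x₀ hC hb hh k).1 fun n =>
        iter_nonneg H hd n (fun x => h0 _) x₀
    · intro h0 v
      exact ge_of_tendsto' (hrep F hF v) fun n => iter_nonneg _ hd' n (fun w => h0 _) v
  · intro F c hF
    obtain ⟨C, hC, hb, hh⟩ := hbh F hF
    constructor
    · intro h0 k
      have h1 := (exists_bv H hℓ hd hs hL x₀ hC hb hh k).1
      have h2 : (fun x => F (x, k)) = fun _ => c := funext fun x => h0 _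
      rw [h2] at h1
      simp only [iter_const H hd] at h1
      exact tendsto_nhds_unique h1 tendsto_const_nhds
    · intro h0 v
      have h1 := hrep F hF v
      have h2 : (fun w : W × ℤ => bv H x₀ F w.2) = fun _ => c := funext fun w => h0 _
      rw [h2] at h1
      simp only [iter_const _ hd'] at h1
      exact tendsto_nhds_unique h1 tendsto_const_nhds
  · intro F j hF
    rfl

end

end Pool.Agent.KS6_89.ZL
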