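import Mathlib
import Pool.Agent.KS6_89.ZL.Rec
import Pool.Agent.KS6_89.ZL.Green

/-!
# Properties of the quotient graph of a `ℤ`-cover
-/

set_option autoImplicit false

namespace Pool.Agent.KS6_89.ZL

open Filter MeasureTheory Topology

variable {V W : Type} {G : SimpleGraph V} {H : SimpleGraph W} [AddAction ℤ V] {π : V → W}

section

variable [G.LocallyFinite] [H.LocallyFinite]

open Classical in
theorem cover_neighborFinset (hπ : IsCover G H π) (x : V) :
    H.neighborFinset (π x) = (G.neighborFinset x).image π := by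
  ext y
  rw [SimpleGraph.mem_neighborFinset, Finset.mem_image]
  constructor
  · intro hy
    obtain ⟨z, hz, rfl⟩ := (hπ.2.2 x).surjOn hy
    exact ⟨z, by rw [SimpleGraph.mem_neighborFinset]; exact hz, rfl⟩
  · rintro ⟨z, hz, rfl⟩
    rw [SimpleGraph.mem_neighborFinset] at hz
    exact (hπ.2.2 x).mapsTo hz

omit [H.LocallyFinite] in
theorem cover_injOn (hπ : IsCover G H π) (x : V) : Set.InjOn π (G.neighborFinset x : Set V) := by
  intro a ha b hb h
  refine (hπ.2.2 x).injOn ?_ ?_ h
  · rwa [Finset.mem_coe, SimpleGraph.mem_neighborFinset] at ha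
  · rwa [Finset.mem_coe, SimpleGraph.mem_neighborFinset] at hb

theorem cover_degree (hπ : IsCover G H π) (x : V) : H.degree (π x) = G.degree x := by
  classical
  rw [← SimpleGraph.card_neighborFinset_eq_degree, cover_neighborFinset hπ,
    Finset.card_image_of_injOn (cover_injOn hπ x), SimpleGraph.card_neighborFinset_eq_degree]

theorem cover_sum (hπ : IsCover G H π) (x : V) (f : W → ℝ) :
    ∑ y ∈ H.neighborFinset (π x), f y = ∑ z ∈ G.neighborFinset x, f (π z) := by
  classical
  rw [cover_neighborFinset hπ, Finset.sum_image (cover_injOn hπ x)]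

theorem cover_avg (hπ : IsCover G H π) (f : W → ℝ) :
    avg G (fun v => f (π v)) = fun v => avg H f (π v) := by
  funext x
  unfold avg
  rw [cover_sum hπ, cover_degree hπ]

theorem cover_iter (hπ : IsCover G H π) (n : ℕ) (f : W → ℝ) :
    (avg G)^[n] (fun v => f (π v)) = fun v => (avg H)^[n] f (π v) := by
  induction n with
  | zero => rfl
  | succ n ih =>
    rw [Function.iterate_succ_apply', ih, cover_avg hπ]
    funext v
    rw [Function.iterate_succ_apply']

theorem cover_prob (hπ : IsCover G H π) (n : ℕ) (x : V) :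
    prob G n x (AddAction.orbit ℤ x) = prob H n (π x) {π x} := by
  classical
  unfold prob
  refine Eq.trans ?_ (congrFun (cover_iter hπ n _) x)
  refine congrArg (fun f => (avg G)^[n] f x) (funext fun z => ?_)
  have h1 : z ∈ AddAction.orbit ℤ x ↔ π z ∈ ({π x} : Set W) := by
    rw [Set.mem_singleton_iff]
    constructor
    · rintro ⟨k, rfl⟩
      exact ((hπ.2.1 x (k +ᵥ x)).2 ⟨k, rfl⟩).symm
    · intro h
      obtain ⟨k, hk⟩ := (hπ.2.1 x z).1 h.symm
      exact ⟨k, hk⟩
  by_cases h : z ∈ AddAction.orbit ℤ x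
  · rw [if_pos h, if_pos (h1.1 h)]
  · rw [if_neg h, if_neg (fun h' => h (h1.2 h'))]

theorem cover_transient (hπ : IsCover G H π) (h : QuotientTransient G) : Transient H := by
  intro y
  obtain ⟨x, rfl⟩ := hπ.1 y
  refine (h x).congr fun n => ?_
  rw [cover_prob hπ]

theorem cover_liouville (hπ : IsCover G H π) (h : QuotientLiouville G) : Liouville H := by
  rintro f ⟨C, hC⟩ hf y y'
  obtain ⟨x, rfl⟩ := hπ.1 y
  obtain ⟨x', rfl⟩ := hπ.1 y'
  have hlift : ∀ a b : V, (AddAction.orbitRel ℤ V) a b → f (π a) = f (π b) := by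
    intro a b hab
    obtain ⟨k, hk⟩ : a ∈ AddAction.orbit ℤ b := hab
    rw [(hπ.2.1 b a).2 ⟨k, hk⟩]
  set F : AddAction.orbitRel.Quotient ℤ V → ℝ := Quotient.lift (fun v => f (π v)) hlift with hF
  have h1 := h F ⟨C, fun a => by
    induction a using Quotient.inductionOn with
    | _ v => exact hC _⟩ (fun v => by
      have h2 := hf (π v)
      rw [cover_degree hπ, cover_sum hπ] at h2
      exact h2) (Quotient.mk _ x) (Quotient.mk _ x')
  exact h1

end

/-- the projection as a homomorphism of graphs -/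
def projHom (hπ : IsCover G H π) : G →g H :=
  ⟨π, fun {a} {_} h => (hπ.2.2 a).mapsTo h⟩

/-- the projection of a path does not backtrack -/
theorem proj_chain (hπ : IsCover G H π) {a b : V} (q : G.Walk a b) (hq : q.IsPath) :
    List.IsChain (· ≠ ·) (q.map (projHom hπ)).edges := by
  induction q with
  | nil => simp
  | @cons a b c h p ih =>
    rw [SimpleGraph.Walk.cons_isPath_iff] at hq
    have h1 := ih hq.1
    cases p with
    | nil => simp
    | @cons _ d _ h' p' =>
      rw [SimpleGraph.Walk.map_cons, SimpleGraph.Walk.map_cons, SimpleGraph.Walk.edges_cons,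
        SimpleGraph.Walk.edges_cons, List.isChain_cons_cons]
      rw [SimpleGraph.Walk.map_cons, SimpleGraph.Walk.edges_cons] at h1
      refine ⟨?_, h1⟩
      intro heq
      have hab : H.Adj (π a) (π b) := (hπ.2.2 a).mapsTo h
      have hbd : H.Adj (π b) (π d) := (hπ.2.2 b).mapsTo h'
      have heq' : s(π a, π b) = s(π b, π d) := heq
      rw [Sym2.eq_iff] at heq'
      have h2 : π a = π d := by
        rcases heq' with h3 | h3
        · exact absurd h3.1 hab.ne
        · exact h3.1
      have h3 : a = d := (hπ.2.2 b).injOn h.symm h' h2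
      apply hq.2
      rw [h3]
      simp

/-- a tree has no connected `ℤ`-cover -/
theorem cover_not_acyclic (hc : G.Connected) (ha : ∀ (k : ℤ) (x : V), k +ᵥ x = x → k = 0)
    (hπ : IsCover G H π) : ¬ H.IsAcyclic := by
  intro hac
  obtain ⟨x⟩ := hc.nonempty
  obtain ⟨q, hq⟩ := (hc.preconnected x ((1 : ℤ) +ᵥ x)).exists_isPath
  have h1 := (hac.isPath_iff_isChain (q.map (projHom hπ))).2 (proj_chain hπ q hq)
  have h2 : π x = π ((1 : ℤ) +ᵥ x) := (hπ.2.1 _ _).2 ⟨1, rfl⟩
  have key : ∀ {a b : W} (p : H.Walk a b), p.IsPath → a = b → p.length = 0 := by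
    rintro a b p hp rfl
    rw [SimpleGraph.Walk.isPath_iff_nil] at hp
    exact SimpleGraph.Walk.length_eq_zero_iff.2 hp
  have h3 := key _ h1 h2
  rw [SimpleGraph.Walk.length_map] at h3
  have h4 := SimpleGraph.Walk.eq_of_length_eq_zero h3
  exact one_ne_zero (ha 1 x h4.symm)

end Pool.Agent.KS6_89.ZL
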