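import Mathlib
import Pool.Graph.R_seed8.Results.MP_09df17_pr.Counterexample
import Pool.Agent.KS6_89.ZL.Green

/-!
# The lattice `ℤ^6` is Liouville, transient and not a tree
-/

set_option autoImplicit false

namespace Pool.Agent.KS6_89.ZL

open Filter MeasureTheory Topology
open Pool.Agent.Results.MP_09df17_pr.Counterexample (W S sg st OnAxis Q superharm st_inj sg_not
  liouville_abelian siz siz_dec)

theorem st_neg (s : S) : st (s.1, !s.2) = - st s := by
  unfold st
  rw [sg_not, Pi.single_neg]

theorem st_ne (s : S) : st s ≠ 0 := by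
  intro h
  have h1 := congrFun h s.1
  unfold st at h1
  rw [Pi.single_eq_same] at h1
  have h2 : sg s.2 = 0 := h1
  cases hs : s.2 <;> rw [hs] at h2 <;> simp [sg] at h2

/-- the lattice `ℤ^6` -/
def lat : SimpleGraph W where
  Adj x y := ∃ s, x + st s = y
  symm := by
    refine ⟨?_⟩
    rintro x y ⟨s, rfl⟩
    exact ⟨(s.1, !s.2), by rw [st_neg]; abel⟩
  loopless := by
    refine ⟨?_⟩
    rintro x ⟨s, hs⟩
    exact st_ne s (by simpa using hs)

theorem lat_adj (x y : W) : lat.Adj x y ↔ ∃ s, x + st s = y := Iff.rfl

theorem lat_neighborSet (x : W) : lat.neighborSet x = Set.range fun s => x + st s := rfl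

noncomputable instance : lat.LocallyFinite := fun x =>
  (show (lat.neighborSet x).Finite by
    rw [lat_neighborSet]
    exact Set.finite_range _).fintype

theorem lat_neighborFinset (x : W) :
    lat.neighborFinset x = Finset.univ.image fun s => x + st s := by
  ext y
  rw [SimpleGraph.mem_neighborFinset, Finset.mem_image, lat_adj]
  simp

theorem lat_degree (x : W) : lat.degree x = 12 := by
  rw [← SimpleGraph.card_neighborFinset_eq_degree, lat_neighborFinset,
    Finset.card_image_of_injective _ (fun a b h => st_inj (add_left_cancel h))]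
  simp

theorem lat_sum (x : W) (f : W → ℝ) : ∑ y ∈ lat.neighborFinset x, f y = ∑ s, f (x + st s) := by
  rw [lat_neighborFinset, Finset.sum_image (fun a _ b _ h => st_inj (add_left_cancel h))]

theorem lat_posDeg : PosDeg lat := fun x => by
  rw [lat_degree]
  norm_num

theorem lat_reach (n : ℕ) : ∀ x : W, siz x = n → lat.Reachable x 0 := by
  induction n using Nat.strong_induction_on with
  | _ n ih =>
    intro x hx
    by_cases h0 : x = 0
    · rw [h0]
    · have : ∃ i, x i ≠ 0 := by
        by_contra hno
        push Not at hno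
        exact h0 (funext hno)
      obtain ⟨i, hi⟩ := this
      obtain ⟨b, hb⟩ := siz_dec x i hi
      have hadj : lat.Adj x (x + st (i, b)) := ⟨_, rfl⟩
      exact hadj.reachable.trans (ih _ (by omega) _ rfl)

theorem lat_connected : lat.Connected := by
  have : Nonempty W := ⟨0⟩
  exact ⟨fun x y => (lat_reach _ x rfl).trans (lat_reach _ y rfl).symm⟩

theorem lat_liouville : Liouville lat := by
  rintro f ⟨C, hC⟩ hf
  have h1 : ∀ s x, f (x + st s) = f x := fun s x =>
    liouville_abelian st f C hC (fun x => by
      have h2 := hf x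
      rw [lat_degree, lat_sum] at h2
      rw [← h2]
      simp) s x
  have h2 : ∀ x y, lat.Reachable x y → f x = f y := by
    rintro x y ⟨w⟩
    induction w with
    | nil => rfl
    | cons hadj _ ih =>
      obtain ⟨s, rfl⟩ := hadj
      rw [← ih, h1]
  exact fun x y => h2 x y (lat_connected.preconnected x y)

theorem lat_transient : Transient lat := by
  classical
  intro x
  have h1 := no_charge lat lat_posDeg (w := fun z => (Q (z - x))⁻¹)
    (q := fun z => if z ∈ ({x} : Set W) then 1 else 0)
    (fun z => by
      have := Pool.Agent.Results.MP_09df17_pr.Counterexample.Q_pos (z - x)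
      positivity)
    (fun z => by split_ifs <;> norm_num) (δ := 5 / 12) (by norm_num) (fun z => by
      have h2 : avg lat (fun z => (Q (z - x))⁻¹) z = (∑ s, (Q (z - x + st s))⁻¹) / 12 := by
        unfold avg
        rw [lat_degree, lat_sum]
        have : ∀ s, z + st s - x = z - x + st s := fun s => by abel
        simp only [this]
        norm_num
      rw [h2]
      have h3 := superharm (z - x)
      by_cases hz : z ∈ ({x} : Set W)
      · rw [if_pos hz]
        rw [Set.mem_singleton_iff] at hz
        have hax : OnAxis (z - x) := by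
          rw [hz, sub_self]
          intro i _
          rfl
        rw [if_pos hax] at h3
        linarith
      · rw [if_neg hz]
        have h4 : (0 : ℝ) ≤ 5 * (if OnAxis (z - x) then 1 else 0) := by positivity
        linarith) x
  refine h1.congr fun n => ?_
  unfold prob
  refine congrArg (fun f => (avg lat)^[n] f x) (funext fun z => ?_)
  by_cases hz : z ∈ ({x} : Set W)
  · rw [if_pos hz, if_pos hz]
  · rw [if_neg hz, if_neg hz]

theorem lat_not_acyclic : ¬ lat.IsAcyclic := by
  rw [SimpleGraph.isAcyclic_iff_forall_adj_isBridge]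
  intro h
  set e1 : W := st (0, true) with he1
  set e2 : W := st (1, true) with he2
  have a01 : lat.Adj 0 e1 := ⟨(0, true), by rw [zero_add]⟩
  have a02 : lat.Adj 0 e2 := ⟨(1, true), by rw [zero_add]⟩
  have a21 : lat.Adj e2 (e2 + e1) := ⟨(0, true), rfl⟩
  have a11 : lat.Adj e1 (e2 + e1) := ⟨(1, true), by rw [add_comm]⟩
  have hb := h a01
  rw [SimpleGraph.isBridge_iff_forall_walk_mem_edges] at hb
  have h1 := hb (SimpleGraph.Walk.cons a02 (SimpleGraph.Walk.cons a21
    (SimpleGraph.Walk.cons a11.symm SimpleGraph.Walk.nil)))
  have v1 : e1 0 = 1 := by simp [he1, st, sg]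
  have v2 : e2 0 = 0 := by simp [he2, st]
  have v3 : e1 1 = 0 := by simp [he1, st]
  have v4 : e2 1 = 1 := by simp [he2, st, sg]
  have n1 : e1 ≠ e2 := fun h => by
    have := congrFun h 0
    rw [v1, v2] at this
    omega
  have n2 : e1 ≠ 0 := fun h => by
    have := congrFun h 0
    rw [v1] at this
    exact absurd this (by norm_num)
  have n3 : e2 ≠ 0 := fun h => by
    have := congrFun h 1
    rw [v4] at this
    exact absurd this (by norm_num)
  have n4 : e2 + e1 ≠ 0 := fun h => by
    have := congrFun h 0
    rw [Pi.add_apply, v1, v2] at this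
    exact absurd this (by norm_num)
  simp only [SimpleGraph.Walk.edges_cons, SimpleGraph.Walk.edges_nil, List.mem_cons,
    List.not_mem_nil, or_false, Sym2.eq_iff] at h1
  rcases h1 with (h1 | h1) | (h1 | h1) | (h1 | h1)
  · exact n1 h1.2
  · exact n3 h1.1.symm
  · exact n3 h1.1.symm
  · exact n4 h1.1.symm
  · exact n4 h1.1.symm
  · exact n2 h1.1.symm

end Pool.Agent.KS6_89.ZL
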